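import Mathlib

/-!
The category of finitely generated graded modules over a graded commutative complex algebra.
-/

namespace Pool.Agent.MP_228983_ag

open CategoryTheory

variable {A : Type} [CommRing A] [Algebra ℂ A]

/-- A finitely generated graded module over the algebra A with graded pieces 𝒜 d. -/
structure GrMod (𝒜 : ℤ → Submodule ℂ A) where
  car : Type
  [acg : AddCommGroup car]
  [modC : Module ℂ car]
  [modA : Module A car]
  [tower : IsScalarTower ℂ A car]
  gr : ℤ → Submodule ℂ car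
  internal : DirectSum.IsInternal gr
  smul_mem : ∀ (i j : ℤ) (a : A) (x : car), a ∈ 𝒜 i → x ∈ gr j → a • x ∈ gr (i + j)
  fin : Module.Finite A car

attribute [instance] GrMod.acg GrMod.modC GrMod.modA GrMod.tower GrMod.fin

variable {𝒜 : ℤ → Submodule ℂ A}

/-- Degree preserving A-linear maps. -/
def GrMod.homs (M N : GrMod 𝒜) : Submodule ℂ (M.car →ₗ[A] N.car) where
  carrier := {φ | ∀ (j : ℤ) (x : M.car), x ∈ M.gr j → φ x ∈ N.gr j}
  add_mem' hφ hψ j x hx := (N.gr j).add_mem (hφ j x hx) (hψ j x hx)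
  zero_mem' j _ _ := (N.gr j).zero_mem
  smul_mem' c _ hφ j x hx := (N.gr j).smul_mem c (hφ j x hx)

/-- The type of degree preserving A-linear maps. -/
def GrMod.Hom (M N : GrMod 𝒜) : Type := M.homs N

namespace GrMod.Hom

/-- The identity. -/
def id (M : GrMod 𝒜) : Hom M M := ⟨LinearMap.id, fun _ _ hx => hx⟩

/-- Composition. -/
def comp {M N P : GrMod 𝒜} (φ : Hom M N) (ψ : Hom N P) : Hom M P :=
  ⟨ψ.1 ∘ₗ φ.1, fun j x hx => ψ.2 j _ (φ.2 j x hx)⟩

instance addCommGroup (M N : GrMod 𝒜) : AddCommGroup (Hom M N) := (M.homs N).addCommGroup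

instance module (M N : GrMod 𝒜) : Module ℂ (Hom M N) := (M.homs N).module

theorem id_comp {M N : GrMod 𝒜} (φ : Hom M N) : (id M).comp φ = φ := rfl

theorem comp_id {M N : GrMod 𝒜} (φ : Hom M N) : φ.comp (id N) = φ := rfl

theorem assoc {M N P Q : GrMod 𝒜} (φ : Hom M N) (ψ : Hom N P) (χ : Hom P Q) :
    (φ.comp ψ).comp χ = φ.comp (ψ.comp χ) := rfl

theorem add_comp (M N P : GrMod 𝒜) (φ φ' : Hom M N) (ψ : Hom N P) :
    (φ + φ').comp ψ = φ.comp ψ + φ'.comp ψ := Subtype.ext (LinearMap.comp_add φ.1 φ'.1 ψ.1)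

theorem comp_add (M N P : GrMod 𝒜) (φ : Hom M N) (ψ ψ' : Hom N P) :
    φ.comp (ψ + ψ') = φ.comp ψ + φ.comp ψ' := Subtype.ext (LinearMap.add_comp φ.1 ψ'.1 ψ.1)

theorem smul_comp (M N P : GrMod 𝒜) (c : ℂ) (φ : Hom M N) (ψ : Hom N P) :
    (c • φ).comp ψ = c • φ.comp ψ := Subtype.ext (LinearMap.comp_smul ψ.1 c φ.1)

theorem comp_smul (M N P : GrMod 𝒜) (φ : Hom M N) (c : ℂ) (ψ : Hom N P) :
    φ.comp (c • ψ) = c • φ.comp ψ := Subtype.ext (LinearMap.smul_comp c ψ.1 φ.1)

end GrMod.Hom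

instance GrMod.category : Category.{0} (GrMod 𝒜) where
  Hom := GrMod.Hom
  id := GrMod.Hom.id
  comp := GrMod.Hom.comp
  id_comp := GrMod.Hom.id_comp
  comp_id := GrMod.Hom.comp_id
  assoc := GrMod.Hom.assoc

instance GrMod.preadditive : Preadditive (GrMod 𝒜) where
  homGroup := GrMod.Hom.addCommGroup
  add_comp := GrMod.Hom.add_comp
  comp_add := GrMod.Hom.comp_add

instance GrMod.linear : Linear ℂ (GrMod 𝒜) where
  homModule := GrMod.Hom.module
  smul_comp := GrMod.Hom.smul_comp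
  comp_smul := GrMod.Hom.comp_smul

end Pool.Agent.MP_228983_ag
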