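import Pool.Agent.MP_228983_ag.Gr

/-!
Basic constructions with graded modules: components, submodules, quotients, twists, products.
-/

namespace Pool.Agent.MP_228983_ag

open CategoryTheory Limits

variable {A : Type} [CommRing A] [Algebra ℂ A] {𝒜 : ℤ → Submodule ℂ A}

theorem isInternal_of_proj {V : Type} [AddCommGroup V] [Module ℂ V] (gr : ℤ → Submodule ℂ V)
    (p : ℤ → V →ₗ[ℂ] V) (h1 : ∀ j x, x ∈ gr j → p j x = x)
    (h2 : ∀ i j x, i ≠ j → x ∈ gr i → p j x = 0) (h3 : ∀ x, x ∈ ⨆ j, gr j) :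
    DirectSum.IsInternal gr := by
  refine DirectSum.isInternal_submodule_of_iSupIndep_of_iSup_eq_top ?_ (eq_top_iff.2 fun x _ => h3 x)
  intro j
  rw [Submodule.disjoint_def]
  intro x hx hx'
  have : (⨆ i, ⨆ (_ : i ≠ j), gr i) ≤ LinearMap.ker (p j) :=
    iSup_le fun i => iSup_le fun hi y hy => h2 i j y hi hy
  rw [← h1 j x hx]
  exact this hx'

namespace GrMod

@[ext] theorem hom_ext {M N : GrMod 𝒜} {φ ψ : M ⟶ N} (h : ∀ x, φ.1 x = ψ.1 x) : φ = ψ :=
  Subtype.ext (LinearMap.ext h)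

@[simp] theorem id_val (M : GrMod 𝒜) : (𝟙 M : M ⟶ M).1 = LinearMap.id := rfl
@[simp] theorem comp_val {M N P : GrMod 𝒜} (φ : M ⟶ N) (ψ : N ⟶ P) :
    (φ ≫ ψ).1 = ψ.1 ∘ₗ φ.1 := rfl
@[simp] theorem zero_val (M N : GrMod 𝒜) : (0 : M ⟶ N).1 = 0 := rfl
@[simp] theorem add_val {M N : GrMod 𝒜} (φ ψ : M ⟶ N) : (φ + ψ).1 = φ.1 + ψ.1 := rfl
@[simp] theorem neg_val {M N : GrMod 𝒜} (φ : M ⟶ N) : (-φ).1 = -φ.1 := rfl
@[simp] theorem sub_val {M N : GrMod 𝒜} (φ ψ : M ⟶ N) : (φ - ψ).1 = φ.1 - ψ.1 := rfl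
@[simp] theorem smul_val {M N : GrMod 𝒜} (c : ℂ) (φ : M ⟶ N) : (c • φ).1 = c • φ.1 := rfl

theorem map_mem {M N : GrMod 𝒜} (φ : M ⟶ N) {j : ℤ} {x : M.car} (hx : x ∈ M.gr j) :
    φ.1 x ∈ N.gr j := φ.2 j x hx

/-- A morphism from a degree preserving linear map. -/
def mkHom {M N : GrMod 𝒜} (φ : M.car →ₗ[A] N.car)
    (h : ∀ (j : ℤ) (x : M.car), x ∈ M.gr j → φ x ∈ N.gr j) : M ⟶ N := ⟨φ, h⟩

@[simp] theorem mkHom_val {M N : GrMod 𝒜} (φ : M.car →ₗ[A] N.car) (h) :
    (mkHom φ h : M ⟶ N).1 = φ := rfl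

/-- The decomposition into graded pieces. -/
@[instance_reducible]
noncomputable def decomp (M : GrMod 𝒜) : DirectSum.Decomposition M.gr :=
  M.internal.chooseDecomposition

/-- The component of degree j. -/
noncomputable def pr (M : GrMod 𝒜) (j : ℤ) : M.car →ₗ[ℂ] M.car :=
  letI := M.decomp
  (M.gr j).subtype ∘ₗ DirectSum.component ℂ ℤ (fun i => M.gr i) j ∘ₗ
    (DirectSum.decomposeLinearEquiv M.gr).toLinearMap

theorem pr_apply (M : GrMod 𝒜) (j : ℤ) (x : M.car) :
    M.pr j x = (letI := M.decomp; (DirectSum.decompose M.gr x j : M.car)) := rfl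

theorem pr_mem (M : GrMod 𝒜) (j : ℤ) (x : M.car) : M.pr j x ∈ M.gr j := by
  rw [pr_apply]; exact SetLike.coe_mem _

theorem pr_of_mem (M : GrMod 𝒜) {j : ℤ} {x : M.car} (hx : x ∈ M.gr j) : M.pr j x = x := by
  letI := M.decomp
  rw [pr_apply]; exact DirectSum.decompose_of_mem_same M.gr hx

theorem pr_of_mem_ne (M : GrMod 𝒜) {i j : ℤ} {x : M.car} (hx : x ∈ M.gr i) (h : i ≠ j) :
    M.pr j x = 0 := by
  letI := M.decomp
  rw [pr_apply]; exact DirectSum.decompose_of_mem_ne M.gr hx h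

theorem exists_sum_pr (M : GrMod 𝒜) (x : M.car) :
    ∃ s : Finset ℤ, (∀ j ∉ s, M.pr j x = 0) ∧ ∑ j ∈ s, M.pr j x = x := by
  classical
  letI := M.decomp
  refine ⟨(DirectSum.decompose M.gr x).support, fun j hj => ?_,
    DirectSum.sum_support_decompose M.gr x⟩
  rw [pr_apply, DFinsupp.notMem_support_iff.1 hj]; rfl

theorem induction_on (M : GrMod 𝒜) {p : M.car → Prop} (x : M.car) (h0 : p 0)
    (h1 : ∀ j y, y ∈ M.gr j → p y) (h2 : ∀ y z, p y → p z → p (y + z)) : p x := by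
  letI := M.decomp
  exact DirectSum.Decomposition.inductionOn M.gr h0 (fun {i} m => h1 i m m.2) h2 x

theorem eq_zero_of_pr (M : GrMod 𝒜) {x : M.car} (h : ∀ j, M.pr j x = 0) : x = 0 := by
  obtain ⟨s, -, hs⟩ := M.exists_sum_pr x
  rw [← hs]; exact Finset.sum_eq_zero fun j _ => h j

theorem mem_iff_pr (M : GrMod 𝒜) {j : ℤ} {x : M.car} : x ∈ M.gr j ↔ M.pr j x = x :=
  ⟨M.pr_of_mem, fun h => h ▸ M.pr_mem j x⟩

/-- A complex linear map of degree d commutes with taking components. -/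
theorem map_pr {M N : GrMod 𝒜} (φ : M.car →ₗ[ℂ] N.car) (d : ℤ)
    (h : ∀ j x, x ∈ M.gr j → φ x ∈ N.gr (j + d)) (j : ℤ) (x : M.car) :
    φ (M.pr j x) = N.pr (j + d) (φ x) := by
  induction x using M.induction_on with
  | h0 => simp
  | h1 i y hy =>
    by_cases hij : i = j
    · subst hij
      rw [M.pr_of_mem hy, N.pr_of_mem (h _ _ hy)]
    · rw [M.pr_of_mem_ne hy hij, N.pr_of_mem_ne (h _ _ hy) (by omega), map_zero]
  | h2 y z hy hz => simp [hy, hz]

theorem hom_pr {M N : GrMod 𝒜} (φ : M ⟶ N) (j : ℤ) (x : M.car) :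
    φ.1 (M.pr j x) = N.pr j (φ.1 x) := by
  have := map_pr (φ.1.restrictScalars ℂ) 0 (fun j x hx => by simpa using map_mem φ hx) j x
  simpa using this

theorem smul_pr (M : GrMod 𝒜) {d : ℤ} {a : A} (ha : a ∈ 𝒜 d) (j : ℤ) (x : M.car) :
    a • M.pr j x = M.pr (j + d) (a • x) :=
  map_pr (M := M) (N := M) ((LinearMap.lsmul A M.car a).restrictScalars ℂ) d
    (fun j x hx => by rw [add_comm]; exact M.smul_mem d j a x ha hx) j x

/-- Homogeneous submodules. -/
def IsHomog (M : GrMod 𝒜) (W : Submodule A M.car) : Prop := ∀ j x, x ∈ W → M.pr j x ∈ W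

theorem isHomog_ker {M N : GrMod 𝒜} (φ : M ⟶ N) : M.IsHomog (LinearMap.ker φ.1) := by
  intro j x hx
  rw [LinearMap.mem_ker] at hx ⊢
  rw [hom_pr, hx, map_zero]

theorem isHomog_range {M N : GrMod 𝒜} (φ : M ⟶ N) : N.IsHomog (LinearMap.range φ.1) := by
  rintro j _ ⟨x, rfl⟩
  exact ⟨M.pr j x, hom_pr φ j x⟩

/-- The graded quotient by a homogeneous submodule. -/
@[reducible]
def quot (M : GrMod 𝒜) (W : Submodule A M.car) (hW : M.IsHomog W) : GrMod 𝒜 where
  car := M.car ⧸ W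
  gr j := (M.gr j).map (W.mkQ.restrictScalars ℂ)
  internal := by
    refine isInternal_of_proj _
      (fun j => ((W.restrictScalars ℂ).mapQ (W.restrictScalars ℂ) (M.pr j) (hW j))) ?_ ?_ ?_
    · rintro j _ ⟨x, hx, rfl⟩
      exact congrArg W.mkQ (M.pr_of_mem hx)
    · rintro i j _ hij ⟨x, hx, rfl⟩
      exact (congrArg W.mkQ (M.pr_of_mem_ne hx hij)).trans (map_zero _)
    · intro y
      obtain ⟨x, rfl⟩ := W.mkQ_surjective y
      induction x using M.induction_on with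
      | h0 => simp
      | h1 j y hy => exact Submodule.mem_iSup_of_mem j ⟨y, hy, rfl⟩
      | h2 y z hy hz => rw [map_add]; exact add_mem hy hz
  smul_mem := by
    rintro i j a _ ha ⟨x, hx, rfl⟩
    exact ⟨a • x, M.smul_mem i j a x ha hx, rfl⟩
  fin := inferInstance

/-- The projection to a quotient. -/
def quotMk (M : GrMod 𝒜) (W : Submodule A M.car) (hW : M.IsHomog W) : M ⟶ M.quot W hW :=
  mkHom W.mkQ fun _ x hx => ⟨x, hx, rfl⟩

theorem quotMk_surjective (M : GrMod 𝒜) (W : Submodule A M.car) (hW : M.IsHomog W) :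
    Function.Surjective (M.quotMk W hW).1 := W.mkQ_surjective

theorem quotMk_eq_zero (M : GrMod 𝒜) (W : Submodule A M.car) (hW : M.IsHomog W) (x : M.car) :
    (M.quotMk W hW).1 x = 0 ↔ x ∈ W := Submodule.Quotient.mk_eq_zero W

/-- Maps out of a quotient. -/
def quotLift {M N : GrMod 𝒜} (W : Submodule A M.car) (hW : M.IsHomog W) (φ : M ⟶ N)
    (h : ∀ x ∈ W, φ.1 x = 0) : M.quot W hW ⟶ N :=
  mkHom (W.liftQ φ.1 h) (by
    rintro j _ ⟨x, hx, rfl⟩
    exact map_mem φ hx)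

@[simp] theorem quotLift_mk {M N : GrMod 𝒜} (W : Submodule A M.car) (hW : M.IsHomog W)
    (φ : M ⟶ N) (h : ∀ x ∈ W, φ.1 x = 0) (x : M.car) :
    (quotLift W hW φ h).1 ((M.quotMk W hW).1 x) = φ.1 x := rfl

/-- A homogeneous submodule as a graded module. -/
@[reducible]
def sub [IsNoetherianRing A] (M : GrMod 𝒜) (W : Submodule A M.car) (hW : M.IsHomog W) :
    GrMod 𝒜 where
  car := W
  gr j := (M.gr j).comap (W.subtype.restrictScalars ℂ)
  internal := by
    refine isInternal_of_proj _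
      (fun j => (M.pr j).restrict (p := W.restrictScalars ℂ) (q := W.restrictScalars ℂ) (hW j))
      ?_ ?_ ?_
    · intro j x hx
      exact Subtype.ext (M.pr_of_mem hx)
    · intro i j x hij hx
      exact Subtype.ext (M.pr_of_mem_ne hx hij)
    · intro x
      obtain ⟨s, -, hs⟩ := M.exists_sum_pr x.1
      have : x = ∑ j ∈ s, (⟨M.pr j x.1, hW j _ x.2⟩ : W) := by
        apply Subtype.ext
        rw [AddSubmonoidClass.coe_finsetSum]
        exact hs.symm
      rw [this]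
      exact sum_mem fun j _ => Submodule.mem_iSup_of_mem j (M.pr_mem j x.1)
  smul_mem i j a x ha hx := M.smul_mem i j a x.1 ha hx
  fin := inferInstance

/-- The inclusion of a homogeneous submodule. -/
def subι [IsNoetherianRing A] (M : GrMod 𝒜) (W : Submodule A M.car) (hW : M.IsHomog W) :
    M.sub W hW ⟶ M := mkHom W.subtype fun _ _ hx => hx

theorem subι_injective [IsNoetherianRing A] (M : GrMod 𝒜) (W : Submodule A M.car)
    (hW : M.IsHomog W) : Function.Injective (M.subι W hW).1 := W.subtype_injective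

/-- Maps into a homogeneous submodule. -/
def subLift [IsNoetherianRing A] {M N : GrMod 𝒜} (W : Submodule A N.car) (hW : N.IsHomog W)
    (φ : M ⟶ N) (h : ∀ x, φ.1 x ∈ W) : M ⟶ N.sub W hW :=
  mkHom (φ.1.codRestrict W h) fun _ _ hx => map_mem φ hx

@[simp] theorem subι_subLift [IsNoetherianRing A] {M N : GrMod 𝒜} (W : Submodule A N.car)
    (hW : N.IsHomog W) (φ : M ⟶ N) (h : ∀ x, φ.1 x ∈ W) (x : M.car) :
    (N.subι W hW).1 ((subLift W hW φ h).1 x) = φ.1 x := rfl

/-- A bijective morphism is an isomorphism. -/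
noncomputable def isoOfBijective {M N : GrMod 𝒜} (φ : M ⟶ N) (h : Function.Bijective φ.1) :
    M ≅ N where
  hom := φ
  inv := mkHom (LinearEquiv.ofBijective φ.1 h).symm.toLinearMap fun j y hy => by
    obtain ⟨x, rfl⟩ := h.2 y
    have e : (LinearEquiv.ofBijective φ.1 h).symm (φ.1 x) = x :=
      (LinearEquiv.ofBijective φ.1 h).symm_apply_apply x
    change (LinearEquiv.ofBijective φ.1 h).symm (φ.1 x) ∈ _
    rw [e, mem_iff_pr]
    apply h.1
    rw [hom_pr, N.pr_of_mem hy]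
  hom_inv_id := hom_ext fun x => (LinearEquiv.ofBijective φ.1 h).symm_apply_apply x
  inv_hom_id := hom_ext fun x => (LinearEquiv.ofBijective φ.1 h).apply_symm_apply x

theorem isIso_iff_bijective {M N : GrMod 𝒜} (φ : M ⟶ N) : IsIso φ ↔ Function.Bijective φ.1 := by
  refine ⟨fun h => ?_, fun h => (isoOfBijective φ h).isIso_hom⟩
  refine Function.bijective_iff_has_inverse.2 ⟨(inv φ).1, fun x => ?_, fun x => ?_⟩
  · exact congrArg (fun ψ : M ⟶ M => ψ.1 x) (IsIso.hom_inv_id φ)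
  · exact congrArg (fun ψ : N ⟶ N => ψ.1 x) (IsIso.inv_hom_id φ)

/-- The twist M(d), with M(d)_j = M_(j+d). -/
@[reducible]
def twist (M : GrMod 𝒜) (d : ℤ) : GrMod 𝒜 where
  car := M.car
  gr j := M.gr (j + d)
  internal := by
    refine isInternal_of_proj _ (fun j => M.pr (j + d)) (fun j x hx => M.pr_of_mem hx)
      (fun i j x hij hx => M.pr_of_mem_ne hx (by omega)) fun x => ?_
    induction x using M.induction_on with
    | h0 => simp
    | h1 j y hy => exact Submodule.mem_iSup_of_mem (j - d) (by simpa using hy)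
    | h2 y z hy hz => exact add_mem hy hz
  smul_mem i j a x ha hx := by
    rw [add_assoc]; exact M.smul_mem i _ a x ha hx
  fin := M.fin

theorem twist_pr (M : GrMod 𝒜) (d j : ℤ) (x : M.car) : (M.twist d).pr j x = M.pr (j + d) x := by
  have := map_pr (M := M.twist d) (N := M) LinearMap.id d (fun j x hx => hx) j x
  exact this

/-- Finite products of graded modules. -/
@[reducible]
def pi {ι : Type} [Finite ι] (M : ι → GrMod 𝒜) : GrMod 𝒜 where
  car := ∀ i, (M i).car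
  gr j := Submodule.pi Set.univ fun i => (M i).gr j
  internal := by
    classical
    have := Fintype.ofFinite ι
    refine isInternal_of_proj _ (fun j => LinearMap.pi fun i => (M i).pr j ∘ₗ LinearMap.proj i)
      (fun j x hx => funext fun i => (M i).pr_of_mem (hx i trivial))
      (fun i j x hij hx => funext fun k => (M k).pr_of_mem_ne (hx k trivial) hij) fun x => ?_
    rw [← Finset.univ_sum_single x]
    refine sum_mem fun i _ => ?_
    induction x i using (M i).induction_on with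
    | h0 => simp
    | h1 j y hy =>
      refine Submodule.mem_iSup_of_mem j fun k _ => ?_
      by_cases hk : k = i
      · subst hk; simpa using hy
      · simp [hk]
    | h2 y z hy hz => rw [Pi.single_add]; exact add_mem hy hz
  smul_mem i j a x ha hx k _ := (M k).smul_mem i j a (x k) ha (hx k trivial)
  fin := inferInstance

theorem mem_pi {ι : Type} [Finite ι] (M : ι → GrMod 𝒜) (j : ℤ) (x : (pi M).car) :
    x ∈ (pi M).gr j ↔ ∀ i, x i ∈ (M i).gr j := ⟨fun h i => h i trivial, fun h i _ => h i⟩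

/-- The projections of a product. -/
def piπ {ι : Type} [Finite ι] (M : ι → GrMod 𝒜) (i : ι) : pi M ⟶ M i :=
  mkHom (LinearMap.proj i) fun _ _ hx => hx i trivial

/-- Maps into a product. -/
def piLift {ι : Type} [Finite ι] {N : GrMod 𝒜} {M : ι → GrMod 𝒜} (φ : ∀ i, N ⟶ M i) :
    N ⟶ pi M := mkHom (LinearMap.pi fun i => (φ i).1) fun _ _ hx i _ => map_mem (φ i) hx

theorem pi_pr {ι : Type} [Finite ι] (M : ι → GrMod 𝒜) (j : ℤ) (x : (pi M).car) (i : ι) :
    (pi M).pr j x i = (M i).pr j (x i) := hom_pr (piπ M i) j x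

theorem hasFiniteProducts : HasFiniteProducts (GrMod 𝒜) where
  out n := ⟨fun F => by
    refine (hasLimit_iff_of_iso (Discrete.natIsoFunctor (F := F))).2 ?_
    exact HasLimit.mk ⟨_, Fan.IsLimit.mk (Fan.mk (pi fun i => F.obj ⟨i⟩) (piπ _))
      (fun s => piLift s.proj) (fun s i => rfl)
      (fun s m h => hom_ext fun x => funext fun i =>
        congrArg (fun ψ : s.pt ⟶ F.obj ⟨i⟩ => ψ.1 x) (h i))⟩⟩

/-- The explicit kernel. -/
def kerIsLimit [IsNoetherianRing A] {M N : GrMod 𝒜} (φ : M ⟶ N) :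
    IsLimit (KernelFork.ofι (M.subι _ (isHomog_ker φ)) (hom_ext fun x => x.2) : KernelFork φ) :=
  KernelFork.IsLimit.ofι _ _
    (fun g hg => subLift _ _ g fun x => congrArg (fun ψ : _ ⟶ N => ψ.1 x) hg)
    (fun _ _ => rfl)
    (fun _ _ _ hm => hom_ext fun x => Subtype.ext (congrArg (fun ψ : _ ⟶ M => ψ.1 x) hm))

/-- The explicit cokernel. -/
def cokerIsColimit {M N : GrMod 𝒜} (φ : M ⟶ N) :
    IsColimit (CokernelCofork.ofπ (N.quotMk _ (isHomog_range φ))
      (hom_ext fun x => (N.quotMk_eq_zero _ _ _).2 ⟨x, rfl⟩) : CokernelCofork φ) :=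
  CokernelCofork.IsColimit.ofπ _ _
    (fun g hg => quotLift _ _ g (by
      rintro _ ⟨x, rfl⟩
      exact congrArg (fun ψ : M ⟶ _ => ψ.1 x) hg))
    (fun _ _ => rfl)
    (fun _ _ _ hm => hom_ext fun y => by
      obtain ⟨x, rfl⟩ := N.quotMk_surjective _ _ y
      exact congrArg (fun ψ : N ⟶ _ => ψ.1 x) hm)

theorem hasKernels [IsNoetherianRing A] : HasKernels (GrMod 𝒜) :=
  ⟨fun φ => HasLimit.mk ⟨_, kerIsLimit φ⟩⟩

theorem hasCokernels : HasCokernels (GrMod 𝒜) :=
  ⟨fun φ => HasColimit.mk ⟨_, cokerIsColimit φ⟩⟩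

theorem mono_iff_injective [IsNoetherianRing A] {M N : GrMod 𝒜} (φ : M ⟶ N) :
    Mono φ ↔ Function.Injective φ.1 := by
  refine ⟨fun h => ?_, fun h => ⟨fun g g' e => hom_ext fun x =>
    h (congrArg (fun ψ : _ ⟶ N => ψ.1 x) e)⟩⟩
  rw [injective_iff_map_eq_zero]
  intro x hx
  have : M.subι _ (isHomog_ker φ) = 0 := by
    rw [← cancel_mono φ, zero_comp]
    exact hom_ext fun y => y.2
  exact congrArg (fun ψ : M.sub _ (isHomog_ker φ) ⟶ M => ψ.1 ⟨x, hx⟩) this

theorem epi_iff_surjective {M N : GrMod 𝒜} (φ : M ⟶ N) :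
    Epi φ ↔ Function.Surjective φ.1 := by
  refine ⟨fun h y => ?_, fun h => ⟨fun g g' e => hom_ext fun y => by
    obtain ⟨x, rfl⟩ := h y
    exact congrArg (fun ψ : M ⟶ _ => ψ.1 x) e⟩⟩
  have : N.quotMk _ (isHomog_range φ) = 0 := by
    rw [← cancel_epi φ, comp_zero]
    exact hom_ext fun x => (N.quotMk_eq_zero _ _ _).2 ⟨x, rfl⟩
  exact (N.quotMk_eq_zero _ (isHomog_range φ) y).1
    (congrArg (fun ψ : N ⟶ N.quot _ (isHomog_range φ) => ψ.1 y) this)

theorem isNormalMonoCategory [IsNoetherianRing A] : IsNormalMonoCategory (GrMod 𝒜) where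
  normalMonoOfMono {M N} φ hφ := by
    have hi := (mono_iff_injective φ).1 hφ
    let q := N.quotMk _ (isHomog_range φ)
    have hq : ∀ x, φ.1 x ∈ LinearMap.ker q.1 := fun x => (N.quotMk_eq_zero _ _ _).2 ⟨x, rfl⟩
    have hb : Function.Bijective (subLift _ (isHomog_ker q) φ hq).1 := by
      refine ⟨fun x y e => hi (congrArg Subtype.val e), fun y => ?_⟩
      obtain ⟨x, hx⟩ := (N.quotMk_eq_zero _ (isHomog_range φ) _).1 y.2
      exact ⟨x, Subtype.ext hx⟩
    exact ⟨{ Z := _, g := q, w := hom_ext hq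
             isLimit := IsKernel.isoKernel _ _ (kerIsLimit q) (isoOfBijective _ hb) rfl }⟩

theorem isNormalEpiCategory [IsNoetherianRing A] : IsNormalEpiCategory (GrMod 𝒜) where
  normalEpiOfEpi {M N} φ hφ := by
    have hs := (epi_iff_surjective φ).1 hφ
    let i := M.subι _ (isHomog_ker φ)
    have hi : ∀ x ∈ LinearMap.range i.1, φ.1 x = 0 := by
      rintro _ ⟨y, rfl⟩
      exact y.2
    have hb : Function.Bijective (quotLift _ (isHomog_range i) φ hi).1 := by
      refine ⟨(injective_iff_map_eq_zero _).2 fun y hy => ?_, fun y => ?_⟩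
      · obtain ⟨x, rfl⟩ := M.quotMk_surjective _ _ y
        exact (M.quotMk_eq_zero _ _ _).2 ⟨⟨x, hy⟩, rfl⟩
      · obtain ⟨x, rfl⟩ := hs y
        exact ⟨(M.quotMk _ _).1 x, rfl⟩
    exact ⟨{ W := _, g := i, w := hom_ext fun y => y.2
             isColimit := IsCokernel.cokernelIso _ _ (cokerIsColimit i) (isoOfBijective _ hb) rfl }⟩

end GrMod

end Pool.Agent.MP_228983_ag
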