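import Pool.Agent.MP_228983_ag.Stab

/-!
The heart of a stability condition and its homological dimension.
-/

namespace Pool.Agent.MP_228983_ag

open CategoryTheory Limits Pretriangulated

universe v u

variable {C : Type u} [Category.{v} C] [Preadditive C] [HasZeroObject C] [HasShift C ℤ]
  [∀ n : ℤ, (shiftFunctor C n).Additive] [Pretriangulated C] [Linear ℂ C]

/-- The heart P(0,1]: iterated extensions of semistable objects with phases in (0,1]. -/
def Stab.Heart (σ : Stab C) (E : C) : Prop :=
  ∃ l : List ℝ, (∀ t ∈ l, 0 < t ∧ t ≤ 1) ∧ Filt σ.P E l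

/-- The heart has homological dimension at most n. -/
def Stab.HomDimLE (σ : Stab C) (n : ℤ) : Prop :=
  ∀ E F : C, σ.Heart E → σ.Heart F → ∀ k : ℤ, n < k → ∀ u : E ⟶ F⟦k⟧, u = 0

end Pool.Agent.MP_228983_ag
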