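import Pool.Agent.Mg.F53d700.G8b2062
import Pool.Agent.MP_228983_ag.HdDef

/-!
Every stability condition lies in the orbit of a Serre invariant one: density of the phases of a
Serre invariant slicing, truncated Euler characteristics, and the comparison of hearts.
-/

universe v u

namespace Pool.Agent.MP_228983_ag

open CategoryTheory Limits Pretriangulated Set Real Slicing

variable {C : Type u} [Category.{v} C] [Preadditive C] [HasZeroObject C] [HasShift C ℤ]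
  [∀ n : ℤ, (shiftFunctor C n).Additive] [Pretriangulated C] [Linear ℂ C]

/-- A normalised Serre invariant slicing. -/
structure HdCtx (S : SerreFunctor C) (c : C → ℂ) (P : Slicing C) : Prop where
  hyp : AbsHyp S c
  add : AddZ c
  nat : ∀ E, ∃ n : ℕ, Complex.normSq (c E) = n
  sh : P.Sh (7 / 3) S.S
  nice : P.Nice c

variable {S : SerreFunctor C} {c : C → ℂ} {P Q : Slicing C} {E F G : C}

theorem ex_half_HdA : ex (-(1 / 2)) = -Complex.I := by
  apply Complex.ext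
  · rw [ex_re, show π * -(1 / 2) = -(π / 2) by ring, cos_neg, cos_pi_div_two]
    simp
  · rw [ex_im, show π * -(1 / 2) = -(π / 2) by ring, sin_neg, sin_pi_div_two]
    simp

theorem eul_HdA (m s : ℝ) (w : ℂ) :
    -(ex (-1 / 6) * (starRingEnd ℂ) (m * ex s) * w).re = m * rim (s + 2 / 3) w := by
  have h : ex (-(s + 2 / 3)) = ex (-1 / 6) * ex (-s) * -Complex.I := by
    rw [← ex_half_HdA, ← ex_add, ← ex_add]
    congr 1
    ring
  rw [rim, h, map_mul, conj_ex, Complex.conj_ofReal,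
    show ex (-1 / 6) * (m * ex (-s)) * w = m * (w * (ex (-1 / 6) * ex (-s))) by ring,
    Complex.re_ofReal_mul, ← mul_assoc w (ex (-1 / 6) * ex (-s))]
  generalize w * (ex (-1 / 6) * ex (-s)) = z
  simp

omit [HasZeroObject C] [HasShift C ℤ] [∀ n : ℤ, (shiftFunctor C n).Additive] [Pretriangulated C] in
theorem serre_zero_HdA (h : ∀ v : F ⟶ S.S.obj E, v = 0) (u : E ⟶ F) : u = 0 :=
  (S.eta E F).injective (by
    rw [map_zero]
    exact LinearMap.ext fun v => by rw [h v, map_zero, LinearMap.zero_apply])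

omit [HasZeroObject C] [HasShift C ℤ] [∀ n : ℤ, (shiftFunctor C n).Additive] [Pretriangulated C] in
theorem serre_zero'_HdA (h : ∀ u : E ⟶ F, u = 0) (v : F ⟶ S.S.obj E) : v = 0 := by
  refine (Module.forall_dual_apply_eq_zero_iff ℂ v).1 fun φ => ?_
  obtain ⟨u, rfl⟩ := (S.eta E F).surjective φ
  rw [h u, map_zero, LinearMap.zero_apply]

omit [Linear ℂ C] [HasZeroObject C] [∀ n : ℤ, (shiftFunctor C n).Additive] [Pretriangulated C]
  [HasShift C ℤ] in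
theorem shift_ne_HdA (hE : ¬ IsZero E) (T : C ⥤ C) [T.IsEquivalence] : ¬ IsZero (T.obj E) :=
  fun h => hE ((IsZero.iff_id_eq_zero _).2 (T.map_injective (h.eq_of_src _ _)))

variable [IsTriangulated C]

omit [Linear ℂ C] [IsTriangulated C] in
theorem Slicing.Sh.bot {a b : ℝ} {T : C ⥤ C} [T.IsEquivalence] (h : P.Sh a T) (hE : P.Bot b E) :
    P.Bot (b + a) (T.obj E) := ⟨h.ge_iff.2 hE.1, fun h' => hE.2 (h.gt_iff.1 h')⟩

omit [Linear ℂ C] in
theorem of_lt_HdA {x : ℝ} (h : ∀ F, Q.gt 0 F → P.ge x F) (hE : P.lt x E) : Q.le 0 E :=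
  fun _ hs D hD => hom_ge_lt (h D (gt_of_P hD hs)) hE le_rfl

omit [Linear ℂ C] in
theorem of_gt_HdA {x : ℝ} (h : ∀ G, Q.le 0 G → P.le x G) (hE : P.gt x E) : Q.gt 0 E :=
  fun _ hs D hD => hom_gt_le hE (h D (le_of_P hD hs)) le_rfl

omit [Linear ℂ C] [IsTriangulated C] in
theorem le_one_HdA {x : ℝ} (h : ∀ E, P.lt x E → Q.le 0 E) (hE : P.lt (x + 1) E) : Q.le 1 E := by
  have h₁ : P.lt x (E⟦(-1 : ℤ)⟧) := by
    have := (P.sh_neg_one.lt_iff (c := x + 1)).2 hE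
    rwa [add_neg_cancel_right] at this
  refine (Q.sh_neg_one.le_iff (c := 1)).1 ?_
  rw [add_neg_cancel]
  exact h _ h₁

omit [Linear ℂ C] [IsTriangulated C] in
theorem neg_shift_HdA (h : AddZ c) (E : C) : c (E⟦(1 : ℤ)⟧) = -c E := by
  obtain ⟨B, hB, hT⟩ := Tr.left E
  have := h _ _ _ hT.rot
  rw [h.zero hB] at this
  linear_combination -this

omit [Linear ℂ C] in
theorem theta_HdA (hP : P.Ph c) (h : AddZ c) {β θ : ℝ} (hU : ∀ F, Q.gt 0 F → P.ge β F)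
    (hV : ∀ G, Q.le 0 G → P.le (β + 2 / 3) G) (h₁ : β - 1 / 3 < θ) (h₂ : θ < β + 1)
    (hl : ∀ E, Q.gt 0 E → Q.le 1 E → 0 ≤ rim θ (c E)) :
    (∀ F, Q.gt 0 F → P.ge θ F) ∧ ∀ G, Q.le 0 G → P.le θ G := by
  have k₁ : ∀ x E, θ < x → P.P x E → Q.gt 0 E := fun x E hx hE => by
    rcases lt_or_ge (β + 2 / 3) x with hx' | hx'
    · exact of_gt_HdA hV (gt_of_P hE hx')
    obtain ⟨A, B, hT, hA, hB⟩ := Q.cut_gt 0 E
    have hB₁ : P.ge x B := lf.ext₃ hT (ge_of_P hE le_rfl) (hU A hA) fun s hs => by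
      simp only [mem_Iio] at hs ⊢; linarith
    have hB₂ := hl (B⟦(1 : ℤ)⟧) (of_gt_HdA hV ((P.sh_one.ge_iff.2 hB₁).mono
      (Iic_subset_Iio.2 (by linarith)))) (by simpa using Q.sh_one.le_iff.2 hB)
    have hB₃ := hP.above h (c := θ) (hB₁.mono (Iio_subset_Iio hx.le))
      ((hV B hB).mono (Ici_subset_Ioi.2 (by linarith)))
    have e : rim θ (c (B⟦(1 : ℤ)⟧)) = -rim θ (c B) := by
      rw [neg_shift_HdA h]
      simp [rim]
    have hB₄ : IsZero B := (IsZero.iff_id_eq_zero _).2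
      (hB₁ θ hx _ (hB₃.2 (by linarith [hB₃.1])) _)
    obtain ⟨e'⟩ := hT.iso_of_zero₃ hB₄
    exact hA.iso e'
  have k₂ : ∀ x E, x < θ → P.P x E → Q.le 0 E := fun x E hx hE => by
    rcases lt_or_ge x β with hx' | hx'
    · exact of_lt_HdA hU (lt_of_P hE hx')
    obtain ⟨A, B, hT, hA, hB⟩ := Q.cut_gt 0 E
    have hA₁ : P.le x A := rt.ext₁ hT (le_of_P hE le_rfl) (hV B hB) fun s hs => by
      simp only [mem_Ioi] at hs ⊢; linarith
    have hA₂ := hl A hA (le_one_HdA (fun E => of_lt_HdA hU)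
      (hA₁.mono (Ici_subset_Ioi.2 (by linarith))))
    have hA₃ := hP.below h (c := θ) ((hU A hA).mono (Iic_subset_Iio.2 (by linarith)))
      (hA₁.mono (Ioi_subset_Ioi hx.le))
    have hA₄ : IsZero A := (IsZero.iff_id_eq_zero _).2
      (hA₁ θ hx _ (hA₃.2 (by linarith [hA₃.1])) _)
    obtain ⟨e'⟩ := hT.iso_of_zero₁ hA₄
    exact hB.iso e'.symm
  exact ⟨fun F hF s hs D hD => hom_gt_le hF (k₂ s D hs hD) le_rfl,
    fun G hG s hs D hD => hom_gt_le (k₁ s D hs hD) hG le_rfl⟩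

end Pool.Agent.MP_228983_ag

namespace Pool.Agent.MP_228983_ag

open CategoryTheory Limits Pretriangulated Set Real Slicing

theorem rho_HdB {p q : ℝ} (h : p < q) (h' : q < p + 1) : ∃ ρ : ℂ →ₗ[ℝ] ℝ, ρ (ex p) < 0 ∧
    0 < ρ (ex q) ∧ ∀ a b : ℤ, ∃ n : ℤ, ρ (a + b * ex (1 / 3)) = n := by
  let β : ℂ →ₗ[ℝ] ℝ := (ex (1 / 3)).im⁻¹ • Complex.imLm
  let α : ℂ →ₗ[ℝ] ℝ := Complex.reLm - (ex (1 / 3)).re • β
  have hne := im_ne_JCls
  have hz : ∀ θ z, rim θ 1 * α z + rim θ (ex (1 / 3)) * β z = rim θ z := fun θ z => by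
    simp only [rim, α, β, Complex.mul_im, LinearMap.sub_apply, LinearMap.smul_apply,
      Complex.reLm_coe, Complex.imLm_coe, smul_eq_mul, Complex.one_re, Complex.one_im]
    field_simp
    ring
  have e : ∀ θ t, rim θ (ex t) = sin (π * (t - θ)) := fun θ t => by
    simpa using rim_ex θ 1 t
  obtain ⟨⟨r, s⟩, h₁, h₂⟩ := ((Rat.denseRange_cast (𝕜 := ℝ)).prodMap
    (Rat.denseRange_cast (𝕜 := ℝ))).exists_mem_open
    (s := {w : ℝ × ℝ | w.1 * α (ex p) + w.2 * β (ex p) < 0} ∩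
      {w : ℝ × ℝ | 0 < w.1 * α (ex q) + w.2 * β (ex q)})
    ((isOpen_lt (by fun_prop) (by fun_prop)).inter (isOpen_lt (by fun_prop) (by fun_prop)))
    ⟨(rim ((p + q) / 2) 1, rim ((p + q) / 2) (ex (1 / 3))),
      ((hz _ _).trans (e _ _)).trans_lt
        (sin_neg_of_neg_of_neg_pi_lt (by nlinarith [pi_pos]) (by nlinarith [pi_pos])),
      lt_of_lt_of_eq (sin_pos_of_pos_of_lt_pi (by nlinarith [pi_pos]) (by nlinarith [pi_pos]))
        ((hz _ _).trans (e _ _)).symm⟩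
  have hD : (0 : ℝ) < (r.den : ℝ) * s.den :=
    mul_pos (Nat.cast_pos.2 r.den_pos) (Nat.cast_pos.2 s.den_pos)
  refine ⟨((r.den : ℝ) * s.den) • ((r : ℝ) • α + (s : ℝ) • β), mul_neg_of_pos_of_neg hD h₁,
    mul_pos hD h₂, fun a b => ⟨r.num * s.den * a + s.num * r.den * b, ?_⟩⟩
  have h₃ : α (a + b * ex (1 / 3)) = a := by
    simp only [α, β, LinearMap.sub_apply, LinearMap.smul_apply, Complex.reLm_coe, Complex.imLm_coe,
      smul_eq_mul, Complex.add_re, Complex.add_im, Complex.mul_re, Complex.mul_im,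
      Complex.intCast_re, Complex.intCast_im]
    field_simp
    ring
  have h₄ : β (a + b * ex (1 / 3)) = b := by
    simp only [β, LinearMap.smul_apply, Complex.imLm_coe, smul_eq_mul, Complex.add_im,
      Complex.mul_im, Complex.intCast_re, Complex.intCast_im]
    field_simp
    ring
  have h₅ : ∀ x : ℚ, (x.den : ℝ) * x = x.num := fun x => by exact_mod_cast x.den_mul_eq_num
  simp only [LinearMap.smul_apply, LinearMap.add_apply, h₃, h₄, smul_eq_mul]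
  push_cast
  rw [← h₅, ← h₅]
  ring

theorem cramer_HdB (x y : ℝ) (z : ℂ) :
    sin (π * (y - x)) • z = rim x z • ex y - rim y z • ex x := by
  have e : sin (π * (y - x)) = rim x (ex y) := by simpa using (rim_ex x 1 y).symm
  rw [e, rim, rim, rim, ← conj_ex, ← conj_ex]
  apply Complex.ext <;> simp <;> ring

theorem cramer'_HdB (ρ : ℂ →ₗ[ℝ] ℝ) (x y : ℝ) (z : ℂ) :
    sin (π * (y - x)) * ρ z = rim x z * ρ (ex y) - rim y z * ρ (ex x) := by
  have := congrArg ρ (cramer_HdB x y z)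
  rwa [map_sub, map_smul, map_smul, map_smul] at this

theorem rim_sub_HdB (x : ℝ) (z w : ℂ) : rim x (z - w) = rim x z - rim x w := by
  simp [rim, sub_mul]

variable {C : Type u} [Category.{v} C] [Preadditive C] [HasZeroObject C] [HasShift C ℤ]
  [∀ n : ℤ, (shiftFunctor C n).Additive] [Pretriangulated C] [IsTriangulated C]

variable {c : C → ℂ} {P : Slicing C} {E F G : C}

theorem schur_HdB (hP : P.Ph c) (h : AddZ c) {t : ℝ} (hE : P.Stable t E) (hG : P.P t G)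
    (e : c G = c E) (u : G ⟶ E) : u = 0 ∨ IsIso u := by
  obtain ⟨K₀, g, k, hT⟩ := distinguished_cocone_triangle u
  have hT' : Tr E K₀ (G⟦(1 : ℤ)⟧) := (Tr.of hT).rot
  have hE1 : P.P (t + 1) (E⟦(1 : ℤ)⟧) := (P.shift t E).2 hE.1
  have hG1 : P.P (t + 1) (G⟦(1 : ℤ)⟧) := (P.shift t G).2 hG
  have hge : P.ge t K₀ := lf.ext hT' (ge_of_P hE.1 le_rfl) (ge_of_P hG1 (by linarith))
  have hle : P.le (t + 1) K₀ := rt.ext hT' (le_of_P hE.1 (by linarith)) (le_of_P hG1 le_rfl)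
  have hZ : c K₀ = 0 := left_eq_add.1 (e ▸ h G E K₀ (Tr.of hT))
  obtain ⟨A, K, hK₀, hA, hK⟩ := P.cut_gt t K₀
  have hK' : P.P t K := P_of_ge_le (lf.ext₃ hK₀ hge hA fun s hs => by
    simp only [mem_Iio, mem_Iic] at hs ⊢; linarith) hK
  have hA' : P.le (t + 1) A := rt.ext₁ hK₀ hle hK fun s hs => by
    simp only [mem_Ioi] at hs ⊢; linarith
  have hZ' : c A + c K = 0 := (h _ _ _ hK₀).symm.trans hZ
  have hA'' : P.P (t + 1) A := by
    refine (hP.below h (by rwa [add_sub_cancel_right]) hA').2 ?_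
    obtain ⟨m, -, -, e, -⟩ := hP.rim_eq h hK' (t + 1)
    have := congrArg (rim (t + 1)) hZ'
    rw [rim_add, rim_zero, e, show π * (t - (t + 1)) = -π by ring, sin_neg, sin_pi] at this
    simpa using this
  obtain ⟨f', g', k', hK₁⟩ := hK₀
  obtain ⟨J, v, w, hJ⟩ := distinguished_cocone_triangle (g ≫ g')
  have H : Tr (G⟦(1 : ℤ)⟧) J (A⟦(1 : ℤ)⟧) := Tr.of (Triangulated.someOctahedron rfl
    (rot_of_distTriang _ hT) (rot_of_distTriang _ hK₁) hJ).mem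
  have hJ' : P.P (t + 1) J := P_of_ge_le
    (lf.ext H (ge_of_P hG1 le_rfl) (ge_of_P ((P.shift _ _).2 hA'') (by linarith)))
    (rt.ext (Tr.of hJ).rot (le_of_P hK' (by linarith)) (le_of_P hE1 le_rfl))
  have hJ'' : P.P t (J⟦(-1 : ℤ)⟧) := by
    have := (P.sh_neg_one (t + 1) J).2 hJ'
    rwa [add_neg_cancel_right] at this
  rcases hE.2.2 _ _ (Tr.of hJ).invRot hJ'' hK' with h0 | h0
  · left
    have : IsIso (g ≫ g') :=
      (Triangle.isZero₁_iff_isIso₂ _ (inv_rot_of_distTriang _ hJ)).1 h0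
    have hu : u ≫ g = 0 := comp_distTriang_mor_zero₁₂ _ hT
    rw [← cancel_mono (g ≫ g'), ← Category.assoc, hu, zero_comp, zero_comp]
  · right
    replace h0 : IsZero K := h0
    rw [h.zero h0, add_zero] at hZ'
    exact (Triangle.isZero₃_iff_isIso₁ _ hT).1 (Tr.zero₂ ⟨f', g', k', hK₁⟩ (hP.zero_of hA'' hZ') h0)

theorem desc_HdB (hN : P.Nice c) (h : AddZ c) (hn : ∀ E, ∃ n : ℕ, Complex.normSq (c E) = n)
    (hl : ∀ E, ∃ a b : ℤ, c E = a + b * ex (1 / 3)) {p q : ℝ} (hpq : p < q)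
    (hno : ∀ t E, p < t → t < q → P.P t E → IsZero E) {x y : ℝ} {X A : C} (hx : x ≤ p)
    (hy : q ≤ y) (hxy : y ≤ x + 1 / 3) (hX : P.P y X) (hA : P.P x A) (u : X ⟶ A⟦(1 : ℤ)⟧) :
    u = 0 := by
  have hP : P.Ph c := hN.phase
  obtain ⟨ρ, hp, hq, hρ⟩ := rho_HdB hpq (show q < p + 1 by linarith)
  have hs : ∀ x y : ℝ, x < y → y ≤ x + 1 / 3 → 0 < sin (π * (y - x)) := fun x y h h' =>
    sin_pos_of_pos_of_lt_pi (by nlinarith [pi_pos]) (by nlinarith [pi_pos])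
  have hs₀ := hs p q hpq (by linarith)
  have up : ∀ H, P.ge q H → P.le (p + 1 / 3) H → 0 ≤ ρ (c H) ∧ (¬ IsZero H → 0 < ρ (c H)) := by
    intro H h₁ h₂
    have e := cramer'_HdB ρ p q (c H)
    have k₁ := hP.above h (c := p) (h₁.mono (Iio_subset_Iio hpq.le))
      (h₂.mono (Ici_subset_Ioi.2 (by linarith)))
    have k₂ := mul_nonneg (hP.above h h₁ (h₂.mono (Ici_subset_Ioi.2 (by linarith)))).1
      (neg_pos.2 hp).le
    refine ⟨nonneg_of_mul_nonneg_right (by nlinarith [mul_nonneg k₁.1 hq.le]) hs₀, fun h0 => ?_⟩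
    have k₃ : 0 < rim p (c H) := k₁.1.lt_of_ne' fun h' =>
      h0 ((IsZero.iff_id_eq_zero _).2 (h₁ p hpq _ (k₁.2 h') _))
    exact (mul_pos_iff_of_pos_left hs₀).1 (by nlinarith [mul_pos k₃ hq])
  have down : ∀ H, P.le p H → P.ge (q - 1 / 3) H → ρ (c H) ≤ 0 ∧ (¬ IsZero H → ρ (c H) < 0) := by
    intro H h₁ h₂
    have e := cramer'_HdB ρ p q (c H)
    have k₁ := hP.below h (c := q) (h₂.mono (Iic_subset_Iio.2 (by linarith)))
      (h₁.mono (Ioi_subset_Ioi hpq.le))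
    have k₂ := mul_nonneg (neg_nonneg.2
      (hP.below h (h₂.mono (Iic_subset_Iio.2 (by linarith))) h₁).1) hq.le
    refine ⟨le_of_not_gt fun h' => ?_, fun h0 => lt_of_not_ge fun h' => ?_⟩
    · nlinarith [mul_nonneg (neg_nonneg.2 k₁.1) (neg_pos.2 hp).le, mul_pos hs₀ h']
    · have k₃ : rim q (c H) < 0 := k₁.1.lt_of_ne fun h' =>
        h0 ((IsZero.iff_id_eq_zero _).2 (h₁ q hpq _ (k₁.2 h') _))
      nlinarith [mul_pos (neg_pos.2 k₃) (neg_pos.2 hp), mul_nonneg hs₀.le h']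
  have int : ∀ H, ∃ n : ℤ, ρ (c H) = n := fun H => by
    obtain ⟨a, b, e⟩ := hl H
    exact e ▸ hρ a b
  obtain ⟨n, hn'⟩ := exists_nat_gt (ρ (c X) - ρ (c A))
  induction n generalizing x y X A with
  | zero =>
    have k₁ := (up X (ge_of_P hX hy) (le_of_P hX (by linarith))).1
    have k₂ := (down A (le_of_P hA hx) (ge_of_P hA (by linarith))).1
    exact absurd hn' (by push_cast; linarith)
  | succ n ih =>
    have hup : ∀ H, P.P y H → 0 ≤ ρ (c H) := fun H hH =>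
      (up H (ge_of_P hH hy) (le_of_P hH (by linarith))).1
    refine (hP.jh h hn (R := fun Z => P.P y Z ∧ (ρ (c Z) - ρ (c A) < (n + 1 : ℕ) →
      ∀ u : Z ⟶ A⟦(1 : ℤ)⟧, u = 0)) (fun Z hZ => ⟨P.zero _ _ hZ, fun _ u => hZ.eq_of_src _ _⟩)
      ?_ (fun X hS => ⟨hS.1, fun hn' u => ?_⟩) hX).2 hn' u
    · rintro Z₁ Z Z₃ hT h₁ h₃
      refine ⟨P_ext hT h₁.1 h₃.1, fun hZ u => ?_⟩
      rw [h _ _ _ hT, map_add] at hZ
      obtain ⟨f, g, k, hT⟩ := hT
      obtain ⟨w, rfl⟩ := yo₂ hT u (h₁.2 (by linarith [hup _ h₃.1]) _)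
      rw [h₃.2 (by linarith [hup _ h₁.1]) w, comp_zero]
    by_contra hu
    have hX := hS.1
    have hA0 : ¬ IsZero A := fun h0 => hu (((shiftFunctor C (1 : ℤ)).map_isZero h0).eq_of_tgt _ _)
    have hlt : x < y := by linarith
    obtain ⟨E, f, g, hT⟩ := distinguished_cocone_triangle₂ u
    have hT' : Tr A E X := ⟨f, g, u, hT⟩
    obtain ⟨G, F, ⟨i, j, k, hC⟩, hG, hF⟩ := P.cut_gt p E
    have hC' : Tr G E F := ⟨i, j, k, hC⟩
    have hG₁ : P.le y G := rt.ext₁ hC' (rt.ext hT' (le_of_P hA hlt.le) (le_of_P hX le_rfl)) hF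
      fun s hs => by simp only [mem_Ioi] at hs ⊢; linarith
    have hF₁ : P.ge x F := lf.ext₃ hC' (lf.ext hT' (ge_of_P hA le_rfl) (ge_of_P hX hlt.le)) hG
      fun s hs => by simp only [mem_Iio, mem_Iic] at hs ⊢; linarith
    have hG₂ : P.ge q G := fun s hs D hD w => by
      rcases le_or_gt s p with h' | h'
      · exact hG s h' D hD w
      · exact (hno s D h' hs hD).eq_of_tgt _ _
    have e₀ : c X - c G = c F - c A := by
      linear_combination h _ _ _ hC' - h _ _ _ hT'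
    have r₁ : rim x (c X - c G) = rim x (c F) := by
      obtain ⟨m, -, -, e, -⟩ := hP.rim_eq h hA x
      rw [e₀, rim_sub_HdB, e]
      simp
    have r₂ : rim y (c X - c G) = -rim y (c G) := by
      obtain ⟨m, -, -, e, -⟩ := hP.rim_eq h hX y
      rw [rim_sub_HdB, e]
      simp
    have hs₁ := hs x y hlt hxy
    by_cases hFG : P.P x F ∧ P.P y G
    · obtain ⟨m, -, -, e₁, -⟩ := hP.rim_eq h hFG.1 x
      obtain ⟨m', -, -, e₂, -⟩ := hP.rim_eq h hFG.2 y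
      have e₃ := cramer_HdB x y (c X - c G)
      rw [r₁, r₂, e₁, e₂] at e₃
      have e₄ : c G = c X := (sub_eq_zero.1 ((smul_eq_zero.1 (e₃.trans (by simp))).resolve_left
        hs₁.ne')).symm
      rcases schur_HdB hP h hS hFG.2 e₄ (i ≫ g) with h0 | h0
      · obtain ⟨w, hw⟩ := co₂ hT i h0
        rw [P.hom_zero y x G A hlt hFG.2 hA w, zero_comp] at hw
        obtain ⟨v, l, hv⟩ := co₁ hC (𝟙 G) (by rw [hw, comp_zero])
        rw [P.hom_zero y _ G _ (by linarith) hFG.2 ((P.sh_neg_one x F).2 hFG.1) v, zero_comp] at hv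
        exact hS.2.1 (hP.zero_of hX (e₄ ▸ h.zero ((IsZero.iff_id_eq_zero _).2 hv)))
      · have hgu : g ≫ u = 0 := comp_distTriang_mor_zero₂₃ _ hT
        apply hu
        rw [← cancel_epi (i ≫ g), Category.assoc, hgu, comp_zero, comp_zero]
    have hy' : 0 < ρ (ex y) := by
      obtain ⟨m, hm, e⟩ := hP y X hX hS.2.1
      have := (up X (ge_of_P hX hy) (le_of_P hX (by linarith))).2 hS.2.1
      rw [e, ← Complex.real_smul, map_smul] at this
      exact (mul_pos_iff_of_pos_left hm).1 this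
    have hx' : ρ (ex x) < 0 := by
      obtain ⟨m, hm, e⟩ := hP x A hA hA0
      have := (down A (le_of_P hA hx) (ge_of_P hA (by linarith))).2 hA0
      rw [e, ← Complex.real_smul, map_smul] at this
      exact neg_of_mul_neg_right this hm.le
    have k₁ := hP.above h hF₁ (hF.mono (Ici_subset_Ioi.2 (by linarith)))
    have k₂ := hP.below h (hG₂.mono (Iic_subset_Iio.2 (by linarith))) hG₁
    have hδ : 0 < ρ (c X - c G) := by
      have e := cramer'_HdB ρ x y (c X - c G)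
      rw [r₁, r₂] at e
      refine (mul_pos_iff_of_pos_left hs₁).1 (e ▸ ?_)
      rcases not_and_or.1 hFG with h' | h'
      · nlinarith [mul_pos (k₁.1.lt_of_ne' fun h0 => h' (k₁.2 h0)) hy',
          mul_nonneg (neg_nonneg.2 k₂.1) (neg_pos.2 hx').le]
      · nlinarith [mul_pos (neg_pos.2 (k₂.1.lt_of_ne fun h0 => h' (k₂.2 h0))) (neg_pos.2 hx'),
          mul_nonneg k₁.1 hy'.le]
    have hδ' := hδ
    rw [e₀, map_sub] at hδ'
    rw [map_sub] at hδ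
    obtain ⟨y', X', hX', hX₀, hy₁, hy₂, hX₁, hX₂, hX₃⟩ : ∃ y' X', P.P y' X' ∧ ¬ IsZero X' ∧
        q ≤ y' ∧ y' ≤ y ∧ ρ (c X') ≤ ρ (c X) ∧ (¬ IsZero G → ρ (c X') < ρ (c X)) ∧
        (y' = y → P.P y G) := by
      by_cases h0 : IsZero G
      · exact ⟨y, X, hX, hS.2.1, hy, le_rfl, le_rfl, fun h => (h h0).elim, fun _ => P.zero _ _ h0⟩
      obtain ⟨b, hb⟩ := P.exists_bot h0
      obtain ⟨G', B, hT₁, hG', hB, hB'⟩ := hb.tr
      have hqb : q ≤ b := le_of_not_gt fun h' => hb.2 (hG₂.mono (Iic_subset_Iio.2 h'))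
      have hby : b ≤ y := le_of_ge_le hb.1 hG₁ h0
      have k₃ := (up G' (hG'.mono (Iio_subset_Iic_self.trans (Iic_subset_Iic.2 hqb)))
        (rt.ext₁ hT₁ (hG₁.mono (Ioi_subset_Ioi (by linarith))) (le_of_P hB le_rfl) fun s hs => by
          simp only [mem_Ioi] at hs ⊢; linarith)).1
      rw [h _ _ _ hT₁, map_add] at hδ
      exact ⟨b, B, hB, hB', hqb, hby, by linarith, fun _ => by linarith,
        fun e => P_of_ge_le (e ▸ hb.1) hG₁⟩
    obtain ⟨x', A', hA', hA₀, hx₁, hx₂, hA₁, hA₂, hA₃⟩ : ∃ x' A', P.P x' A' ∧ ¬ IsZero A' ∧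
        x' ≤ p ∧ x ≤ x' ∧ ρ (c A) ≤ ρ (c A') ∧ (¬ IsZero F → ρ (c A) < ρ (c A')) ∧
        (x' = x → P.P x F) := by
      by_cases h0 : IsZero F
      · exact ⟨x, A, hA, hA0, hx, le_rfl, le_rfl, fun h => (h h0).elim, fun _ => P.zero _ _ h0⟩
      obtain ⟨a, ha⟩ := P.exists_top h0
      obtain ⟨B, F', hT₁, hB, hB', hF'⟩ := ha.tr
      have hap : a ≤ p := le_of_not_gt fun h' => ha.2 (hF.mono (Ici_subset_Ioi.2 h'))
      have hxa : x ≤ a := le_of_ge_le hF₁ ha.1 h0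
      have k₃ := (down F' (hF'.mono (Ioi_subset_Ici_self.trans (Ici_subset_Ici.2 hap)))
        (lf.ext₃ hT₁ (hF₁.mono (Iio_subset_Iio (by linarith))) (ge_of_P hB le_rfl) fun s hs => by
          simp only [mem_Iio] at hs ⊢; linarith)).1
      rw [h _ _ _ hT₁, map_add] at hδ'
      exact ⟨a, B, hB, hB', hap, hxa, by linarith, fun _ => by linarith,
        fun e => P_of_ge_le hF₁ (e ▸ ha.1)⟩
    have hlt' : y' < x' + 1 / 3 := lt_of_not_ge fun h' =>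
      hFG ⟨hA₃ (by linarith), hX₃ (by linarith)⟩
    have hm : ρ (c X') - ρ (c A') < ρ (c X) - ρ (c A) := by
      by_cases h0 : IsZero G
      · linarith [hA₂ fun h1 => hFG ⟨P.zero _ _ h1, P.zero _ _ h0⟩]
      · linarith [hX₂ h0]
    obtain ⟨w, hw⟩ := hN.hom y' (x' + 1) X' _ (by linarith) (by linarith) hX'
      ((P.shift _ _).2 hA') hX₀ (shift_ne_HdA hA₀ _)
    refine hw (ih hx₁ hy₁ hlt'.le hX' hA' w ?_)
    obtain ⟨n₁, e₁⟩ := int X
    obtain ⟨n₂, e₂⟩ := int A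
    obtain ⟨n₃, e₃⟩ := int X'
    obtain ⟨n₄, e₄⟩ := int A'
    rw [e₁, e₂] at hn' hm
    rw [e₃, e₄] at hm ⊢
    have i₁ : n₁ - n₂ < n + 1 := by exact_mod_cast hn'
    have i₂ : n₃ - n₄ < n₁ - n₂ := by exact_mod_cast hm
    exact_mod_cast (show n₃ - n₄ < n by omega)

variable [Linear ℂ C] {S : SerreFunctor C} {K : ℤ → C}

/-- A family of objects permuted by the Serre functor, with small Hom spaces. -/
structure KHyp (S : SerreFunctor C) (K : ℤ → C) : Prop where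
  iso : ∀ j, Nonempty ((S.S.obj (K j))⟦(-2 : ℤ)⟧ ≅ K (j + 1))
  neg : ∀ j, j < 0 → ∀ u : K 0 ⟶ K j, u = 0
  schur : ∀ u : K 0 ⟶ K 0, u = 0 ∨ IsIso u
  two : ∃ u : K 0 ⟶ K 2, u ≠ 0
  chi : chi (K 0) (K 0) = -1

omit [IsTriangulated C] in
theorem HdCtx.least (H : HdCtx S c P) (hK : KHyp S K) :
    0 < ‖c (K 0)‖ ∧ ∀ E, c E ≠ 0 → ‖c (K 0)‖ ≤ ‖c E‖ := by
  obtain ⟨κ, hκ, e⟩ := H.hyp.euler
  have hc : 0 < (ex (-1 / 6)).re := by
    rw [ex_re]
    exact cos_pos_of_mem_Ioo ⟨by linarith [pi_pos], by linarith [pi_pos]⟩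
  have e' : ∀ E, (chi E E : ℝ) = -(κ * (ex (-1 / 6)).re * ‖c E‖ ^ 2) := fun E => by
    rw [e, mul_assoc (ex _), Complex.conj_mul', ← Complex.ofReal_pow, Complex.re_mul_ofReal]
    ring
  have h₁ := e' (K 0)
  rw [hK.chi] at h₁
  push_cast at h₁
  refine ⟨(norm_nonneg _).lt_of_ne' fun h0 => by simp [h0] at h₁, fun E hE => ?_⟩
  have h₂ : (chi E E : ℝ) < (0 : ℤ) := by
    rw [e']
    have := norm_pos_iff.2 hE
    simpa using by positivity
  have h₃ : (chi E E : ℝ) ≤ -1 := by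
    have := Int.cast_lt.1 h₂
    exact_mod_cast (show chi E E ≤ -1 by omega)
  rw [e'] at h₃
  exact (sq_le_sq₀ (norm_nonneg _) (norm_nonneg _)).1
    (le_of_mul_le_mul_left (by linarith) (mul_pos hκ hc))

theorem HdCtx.seed (H : HdCtx S c P) (hK : KHyp S K) :
    ∃ (y : ℝ) (X Y : C) (u : X ⟶ Y), P.P y X ∧ P.P (y + 2 / 3) Y ∧ u ≠ 0 := by
  have := S.isEquiv
  have hP : P.Ph c := H.nice.phase
  have hT : P.Sh (1 / 3) (S.S ⋙ shiftFunctor C (-2 : ℤ)) := by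
    have := H.sh.comp (Sh.shift P (-2))
    rwa [show (7 / 3 + ((-2 : ℤ) : ℝ)) = 1 / 3 by norm_num] at this
  obtain ⟨u, hu⟩ := hK.two
  have h0 : ¬ IsZero (K 0) := fun h => hu (h.eq_of_src _ _)
  obtain ⟨b, hb⟩ := P.exists_bot h0
  obtain ⟨a, ha⟩ := P.exists_top h0
  have htop : ∀ n : ℕ, P.Top (a + (-n : ℤ) / 3) (K (-n)) := fun n => by
    induction n with
    | zero => simpa using ha
    | succ n ih =>
      obtain ⟨e⟩ := hK.iso (-(n + 1 : ℕ))
      rw [show (-((n + 1 : ℕ) : ℤ) + 1) = -n by push_cast; ring] at e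
      have ih' := ih.iso e.symm
      rw [show a + ((-n : ℤ) : ℝ) / 3 = a + ((-(n + 1 : ℕ) : ℤ) : ℝ) / 3 + 1 / 3 by
        push_cast; ring] at ih'
      exact ⟨hT.le_iff.1 ih'.1, fun h => ih'.2 (hT.lt_iff.2 h)⟩
  have hw : a ≤ b + 2 / 3 := by
    by_contra hc
    replace hc := not_le.1 hc
    obtain ⟨j, h₁, h₂⟩ := exists_third (a - b)
    have h₃ : j ≤ 0 := by
      have : (j : ℝ) < (1 : ℤ) := by push_cast; linarith
      have := Int.cast_lt.1 this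
      omega
    obtain ⟨n, rfl⟩ := Int.exists_eq_neg_ofNat h₃
    rcases n.eq_zero_or_pos with rfl | hn
    · obtain ⟨B, A, p, w, i, hB, hA, h0⟩ := exists_comp H.nice hb ha hc (by simp at h₂; linarith)
      rcases hK.schur (p ≫ w ≫ i) with h1 | h1
      · exact h0 h1
      · have : i ≫ p = 0 := P.hom_zero a b A B (by linarith) hA hB _
        apply h0
        rw [← cancel_mono (p ≫ w ≫ i), zero_comp]
        simp only [Category.assoc, reassoc_of% this, zero_comp, comp_zero]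
    · obtain ⟨B, A, p, w, i, -, -, h0⟩ := exists_comp H.nice hb (htop n) (by linarith)
        (by linarith)
      exact h0 (hK.neg _ (by omega) _)
  rcases (le_of_ge_le hb.1 ha.1 h0).eq_or_lt with rfl | hab
  · have h₁ := P_of_ge_le hb.1 ha.1
    have h₂ := P.iso _ _ _ (hK.iso 0) ((hT _ _).2 h₁)
    have h₃ := P.iso _ _ _ (hK.iso (0 + 1)) ((hT _ _).2 h₂)
    exact ⟨b, _, _, u, h₁, by rwa [show b + 2 / 3 = b + 1 / 3 + 1 / 3 by ring], hu⟩
  obtain ⟨A, E', hT₁, hA, hA', hE'⟩ := ha.tr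
  have hb' : P.Bot b E' := ⟨lf.ext₃ hT₁ hb.1 (ge_of_P hA le_rfl) fun s hs => by
    simp only [mem_Iio] at hs ⊢; linarith, fun h => hb.2 (lf.ext hT₁ (gt_of_P hA hab) h)⟩
  obtain ⟨M, B, hT₂, hM, hB, hB'⟩ := hb'.tr
  have hM' : P.lt a M := rt.ext₁ hT₂ hE' (le_of_P hB le_rfl) fun s hs => by
    simp only [mem_Ici, mem_Ioi] at hs ⊢; linarith
  have h₃ := hP.above H.add (c := (a + b) / 2 - 1 / 2)
    (hM.mono (Iio_subset_Iic_self.trans (Iic_subset_Iic.2 (by linarith))))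
    (hM'.mono (Ici_subset_Ici.2 (by linarith)))
  obtain ⟨hm, hmin⟩ := H.least hK
  have hc : 1 / 2 ≤ cos (π * ((a - b) / 2)) := by
    rw [← cos_pi_div_three]
    exact cos_le_cos_of_nonneg_of_le_pi (by nlinarith [pi_pos]) (by linarith [pi_pos])
      (by nlinarith [pi_pos])
  have key : ∀ s F, P.P s F → ¬ IsZero F →
      sin (π * (s - ((a + b) / 2 - 1 / 2))) = cos (π * ((a - b) / 2)) →
      ‖c (K 0)‖ * cos (π * ((a - b) / 2)) ≤ rim ((a + b) / 2 - 1 / 2) (c F) := by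
    intro s F hF hF' hs
    obtain ⟨n, hn, e'⟩ := hP s F hF hF'
    have hmn := hmin F fun h => hF' (hP.zero_of hF h)
    rw [e', norm_mul, ← sq_eq_sq₀ (norm_nonneg _) zero_le_one |>.1 (show ‖ex s‖ ^ 2 = 1 ^ 2 by
      rw [Complex.sq_norm, normSq_ex, one_pow]) |>.symm, mul_one, Complex.norm_real,
      Real.norm_of_nonneg hn.le] at hmn
    rw [e', rim_ex, hs]
    exact mul_le_mul_of_nonneg_right hmn (by linarith)
  have h₄ := key a A hA hA' (by
    rw [← sin_add_pi_div_two]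
    congr 1
    ring)
  have h₅ := key b B hB hB' (by
    rw [← sin_pi_div_two_sub]
    congr 1
    ring)
  have h₆ : rim ((a + b) / 2 - 1 / 2) (c (K 0)) ≤ ‖c (K 0)‖ := by
    refine (Complex.im_le_norm _).trans ?_
    rw [norm_mul, ← sq_eq_sq₀ (norm_nonneg _) zero_le_one |>.1 (show ‖ex _‖ ^ 2 = 1 ^ 2 by
      rw [Complex.sq_norm, normSq_ex, one_pow]) |>.symm, mul_one]
  rw [H.add _ _ _ hT₁, H.add _ _ _ hT₂, rim_add, rim_add, ← H.add _ _ _ hT₂,
    ← H.add _ _ _ hT₁] at h₆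
  have h₇ : IsZero M := (IsZero.iff_id_eq_zero _).2 (hM _ (mem_Iic.2 (by linarith)) _
    (h₃.2 (le_antisymm (by nlinarith) h₃.1)) _)
  have h₈ : a = b + 2 / 3 := le_antisymm hw (le_of_not_gt fun h => by
    have : 1 / 2 < cos (π * ((a - b) / 2)) := by
      rw [← cos_pi_div_three]
      exact cos_lt_cos_of_nonneg_of_le_pi (by nlinarith [pi_pos]) (by linarith [pi_pos])
        (by nlinarith [pi_pos])
    nlinarith [h₃.1])
  obtain ⟨e⟩ := hT₂.iso_of_zero₁ h₇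
  have hE₁ : P.P b E' := P.iso _ _ _ ⟨e.symm⟩ hB
  obtain ⟨f, g, k, hT₁⟩ := hT₁
  have hk : k ≠ 0 := fun hk => by
    obtain ⟨s, hs⟩ : ∃ s : E' ⟶ K 0, 𝟙 E' = s ≫ g :=
      Triangle.coyoneda_exact₃ _ hT₁ (𝟙 E') ((Category.id_comp k).trans hk)
    have hfg : f ≫ g = 0 := comp_distTriang_mor_zero₁₂ _ hT₁
    rcases hK.schur (g ≫ s) with h | h
    · refine hB' (IsZero.of_iso ((IsZero.iff_id_eq_zero _).2 ?_) e.symm)
      rw [← Category.comp_id (𝟙 E'), hs, Category.assoc, reassoc_of% h, zero_comp, comp_zero]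
    · have hf : f = 0 := by
        rw [← cancel_mono (g ≫ s), reassoc_of% hfg, zero_comp, zero_comp]
      obtain ⟨v, l, hv⟩ := co₁ hT₁ (𝟙 A) (by rw [hf, comp_zero])
      rw [P.hom_zero a _ A _ (by linarith) hA ((P.sh_neg_one b E').2 hE₁) v, zero_comp] at hv
      exact hA' ((IsZero.iff_id_eq_zero _).2 hv)
  by_contra hn
  refine hk (serre_zero_HdA (S := S) (fun v => ?_) k)
  by_contra hv
  refine hn ⟨a + 1, _, _, v, (P.shift _ _).2 hA, ?_, hv⟩
  rw [show a + 1 + 2 / 3 = b + 7 / 3 by linarith]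
  exact (H.sh _ _).2 hE₁

theorem HdCtx.dense (H : HdCtx S c P) (hK : KHyp S K) {p q : ℝ} (hpq : p < q) :
    ∃ t E, p < t ∧ t < q ∧ P.P t E ∧ ¬ IsZero E := by
  have := S.isEquiv
  obtain ⟨y, X, Y, u, hX, hY, hu⟩ := H.seed hK
  by_contra hn
  obtain ⟨j, h₁, h₂⟩ : ∃ j : ℤ, 3 * (y - 1 / 3 - p) ≤ j ∧ j < 3 * (y - 1 / 3 - p) + 1 :=
    ⟨_, Int.le_ceil _, Int.ceil_lt_add_one _⟩
  obtain ⟨T, hT, hT', -⟩ := sh_JNice P P S.S H.sh H.sh (-j)
  have hA : P.P (y - 1 / 3) (Y⟦(-1 : ℤ)⟧) := by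
    rw [show y - 1 / 3 = y + 2 / 3 + -1 by ring]
    exact (P.sh_neg_one _ _).2 hY
  have e := (shiftFunctorCompIsoId C (-1 : ℤ) 1 (by simp)).app Y
  apply hu
  rw [← cancel_mono e.inv, zero_comp]
  refine desc_HdB H.nice H.add H.nat H.hyp.lat (p := p + j / 3) (q := min (q + j / 3) y)
    (lt_min (by linarith) (by linarith)) (fun t E ht ht' hE => ?_) (by linarith) (min_le_right _ _)
    (by linarith) hX hA _
  by_contra h0
  have := (lt_min_iff.1 ht').1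
  exact hn ⟨_, _, by push_cast; linarith, by push_cast; linarith, (hT' t E).2 hE,
    shift_ne_HdA h0 T⟩

end Pool.Agent.MP_228983_ag

namespace Pool.Agent.MP_228983_ag

open CategoryTheory Limits Pretriangulated Set Real Slicing

variable {C : Type u} [Category.{v} C] [Preadditive C] [HasZeroObject C] [HasShift C ℤ]
  [∀ n : ℤ, (shiftFunctor C n).Additive] [Pretriangulated C]

/-- A Harder-Narasimhan tower with nonzero factors, listed from the top. -/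
inductive Twr (P : Slicing C) : C → List ℝ → Prop
  | nil (E : C) (h : IsZero E) : Twr P E []
  | cons (A E E' : C) (t : ℝ) (l : List ℝ) (hT : Tr A E E') (hA : P.P t A) (h0 : ¬ IsZero A)
      (hl : ∀ s ∈ l, s < t) (h : Twr P E' l) : Twr P E (t :: l)

variable {c : C → ℂ} {P Q : Slicing C} {A B E F G : C} {l l' : List ℝ}

theorem Twr.iso (h : Twr P E l) (e : E ≅ F) : Twr P F l := by
  cases h with
  | nil _ h => exact Twr.nil _ (h.of_iso e.symm)
  | cons A _ E' t l hT hA h0 hl h => exact Twr.cons A _ E' t l (hT.iso₂ e) hA h0 hl h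

theorem Twr.le (h : Twr P E l) {a : ℝ} (ha : ∀ t ∈ l, t ≤ a) : P.le a E := by
  induction h with
  | nil E h => exact rt.zero h
  | cons A E E' t l hT hA _ _ _ ih =>
    exact rt.ext hT (le_of_P hA (ha t List.mem_cons_self))
      (ih fun s hs => ha s (List.mem_cons_of_mem _ hs))

theorem Twr.ge (h : Twr P E l) {a : ℝ} (ha : ∀ t ∈ l, a ≤ t) : P.ge a E := by
  induction h with
  | nil E h => exact lf.zero h
  | cons A E E' t l hT hA _ _ _ ih =>
    exact lf.ext hT (ge_of_P hA (ha t List.mem_cons_self))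
      (ih fun s hs => ha s (List.mem_cons_of_mem _ hs))

theorem Tr.shift (h : Tr A E B) (n : ℤ) : Tr (A⟦n⟧) (E⟦n⟧) (B⟦n⟧) := by
  obtain ⟨f, g, k, hT⟩ := h
  exact Tr.of (Triangle.shift_distinguished _ hT n)

theorem Twr.shift (h : Twr P E l) (n : ℤ) : Twr P (E⟦n⟧) (l.map (· + (n : ℝ))) := by
  induction h with
  | nil E h => exact Twr.nil _ ((shiftFunctor C n).map_isZero h)
  | cons A E E' t l hT hA h0 hl _ ih =>
    refine Twr.cons _ _ _ _ _ (hT.shift n) ((Sh.shift P n t A).2 hA) (shift_ne_HdA h0 _)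
      (fun s hs => ?_) ih
    obtain ⟨r, hr, rfl⟩ := List.mem_map.1 hs
    exact add_lt_add_left (hl r hr) _

variable [IsTriangulated C]

theorem Twr.append (h : Twr P A l) (h' : Twr P B l') (hT : Tr A E B)
    (hl : ∀ s ∈ l', ∀ t ∈ l, s < t) : Twr P E (l ++ l') := by
  induction h generalizing E with
  | nil A h =>
    obtain ⟨e⟩ := hT.iso_of_zero₁ h
    exact h'.iso e.symm
  | cons A₀ A A' t l hT' hA h0 hl' _ ih =>
    obtain ⟨f, g, k, hT'⟩ := hT'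
    obtain ⟨f', g', k', hT⟩ := hT
    obtain ⟨Z, g'', k'', hZ⟩ := distinguished_cocone_triangle (f ≫ f')
    refine Twr.cons A₀ E Z t _ (Tr.of hZ) hA h0 (fun s hs => ?_)
      (ih (Tr.of (Triangulated.someOctahedron rfl hT' hT hZ).mem)
        fun s hs r hr => hl s hs r (List.mem_cons_of_mem _ hr))
    exact (List.mem_append.1 hs).elim (hl' s) fun h => hl s h t List.mem_cons_self

theorem exists_twr {W : Set ℝ} (h : P.HN W E) : ∃ l, Twr P E l ∧ ∀ t ∈ l, t ∈ W := by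
  obtain ⟨l, hl, h', h⟩ := h
  induction h generalizing W with
  | nil E h => exact ⟨[], Twr.nil E h, by simp⟩
  | cons T hT t l _ h₃ ih =>
    obtain ⟨l', h₁, h₂⟩ := ih (W := W ∩ Ioi t) hl.of_cons fun s hs =>
      ⟨h' s (List.mem_cons_of_mem _ hs), List.rel_of_pairwise_cons hl hs⟩
    by_cases h0 : IsZero T.obj₃
    · obtain ⟨e⟩ := (Tr.of hT).iso_of_zero₃ h0
      exact ⟨l', h₁.iso e, fun s hs => (h₂ s hs).1⟩
    · obtain ⟨Z, hZ, hT'⟩ := Tr.left T.obj₃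
      refine ⟨l' ++ [t], h₁.append (Twr.cons _ _ Z t [] hT' h₃ h0 (by simp) (Twr.nil Z hZ))
        (Tr.of hT) fun s hs r hr => ?_, fun s hs => ?_⟩
      · rw [List.mem_singleton.1 hs]
        exact (h₂ r hr).2
      · rcases List.mem_append.1 hs with hs | hs
        · exact (h₂ s hs).1
        · rw [List.mem_singleton.1 hs]
          exact h' t List.mem_cons_self

theorem Slicing.Bot.twr {b : ℝ} (h : P.Bot b E) : ∃ l, Twr P E l ∧ b ∈ l := by
  obtain ⟨A, B, hT, hA, hB, h0⟩ := h.tr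
  obtain ⟨l, h₁, h₂⟩ := exists_twr ((P.hn_univ A).inter (isUpperSet_Ioi b) (by rwa [compl_Ioi]))
  obtain ⟨Z, hZ, hT'⟩ := Tr.left B
  refine ⟨l ++ [b], h₁.append (Twr.cons _ _ Z b [] hT' hB h0 (by simp) (Twr.nil Z hZ)) hT
    fun s hs r hr => ?_, by simp⟩
  rw [List.mem_singleton.1 hs]
  exact (h₂ r hr).2

theorem Slicing.Top.twr {a : ℝ} (h : P.Top a E) : ∃ l, Twr P E l ∧ a ∈ l := by
  obtain ⟨A, B, hT, hA, h0, hB⟩ := h.tr
  obtain ⟨l, h₁, h₂⟩ := exists_twr ((P.hn_univ B).diff (isUpperSet_Ici a) hB)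
  exact ⟨a :: l, Twr.cons _ _ _ a l hT hA h0 (fun s hs => not_le.1 (h₂ s hs).2) h₁,
    List.mem_cons_self⟩

theorem twr_cut {y y' : ℝ} (h : ∀ l, Twr P E l → ∀ t ∈ l, t ≤ y ∨ y' ≤ t) :
    ∃ A B, Tr A E B ∧ P.ge y' A ∧ P.le y B := by
  obtain ⟨A, B, hT, hA, hB⟩ := (P.hn_univ E).cut (isUpperSet_Ioi y)
  obtain ⟨l, h₁, h₂⟩ := exists_twr hA
  obtain ⟨l', h₃, h₄⟩ := exists_twr hB
  refine ⟨A, B, hT, h₁.ge fun t ht => ?_, h₃.le fun t ht => not_lt.1 (h₄ t ht).2⟩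
  exact (h _ (h₁.append h₃ hT fun s hs r hr => (not_lt.1 (h₄ s hs).2).trans_lt (h₂ r hr).2) t
    (List.mem_append_left _ ht)).resolve_left (not_le.2 (h₂ t ht).2)

theorem chase_HdE {x y : ℝ} {F₁ F₂ G₁ G₂ : C} (hT : Tr F E G) (hE : P.P x E) (hF : Tr F₁ F F₂)
    (hG : Tr G₁ G G₂) (hF₁ : P.gt x F₁) (hF₂ : P.le y F₂) (hG₁ : P.gt (y + 1) G₁)
    (hG₂ : P.lt x G₂) (h : y < x) (h' : x ≤ y + 1) : IsZero E := by
  obtain ⟨i, p, k, hT⟩ := hT
  obtain ⟨f, f', f'', hF⟩ := hF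
  obtain ⟨ι, g', g'', hG⟩ := hG
  have h₁ : f ≫ i = 0 := hom_gt_le hF₁ (le_of_P hE le_rfl) le_rfl _
  obtain ⟨p', hp⟩ := co₂ hG p (hom_ge_lt (ge_of_P hE le_rfl) hG₂ le_rfl _)
  have hF' := rot_of_distTriang _ (rot_of_distTriang _ (rot_of_distTriang _ hF))
  obtain ⟨φ, hφ⟩ : ∃ φ : G₁ ⟶ F₁⟦(1 : ℤ)⟧, ι ≫ k = φ ≫ (-f⟦(1 : ℤ)⟧') :=
    Triangle.coyoneda_exact₂ _ hF' (ι ≫ k) (hom_gt_le hG₁ (P.sh_one.le_iff.2 hF₂) le_rfl _)
  obtain ⟨ψ, hψ⟩ : ∃ ψ : F₁⟦(1 : ℤ)⟧ ⟶ G, -f⟦(1 : ℤ)⟧' = ψ ≫ k :=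
    Triangle.coyoneda_exact₁ _ hT (-f⟦(1 : ℤ)⟧') (by
      change (-f⟦(1 : ℤ)⟧') ≫ i⟦(1 : ℤ)⟧' = 0
      rw [Preadditive.neg_comp, ← Functor.map_comp, h₁, Functor.map_zero, neg_zero])
  obtain ⟨w, hw⟩ : ∃ w : G₁ ⟶ E, ι - φ ≫ ψ = w ≫ p :=
    Triangle.coyoneda_exact₃ _ hT (ι - φ ≫ ψ) (by
      change (ι - φ ≫ ψ) ≫ k = 0
      rw [Preadditive.sub_comp, hφ, hψ, Category.assoc, sub_self])
  rw [hom_gt_le hG₁ (le_of_P hE h') le_rfl w, zero_comp, sub_eq_zero] at hw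
  have h₂ : p ≫ k = 0 := comp_distTriang_mor_zero₂₃ _ hT
  obtain ⟨w', hw'⟩ : ∃ w' : E ⟶ F₂, p' ≫ φ = w' ≫ f'' :=
    Triangle.coyoneda_exact₂ _ (rot_of_distTriang _ (rot_of_distTriang _ hF)) (p' ≫ φ) (by
      change (p' ≫ φ) ≫ (-f⟦(1 : ℤ)⟧') = 0
      rw [Category.assoc, ← hφ, ← Category.assoc, ← hp, h₂])
  rw [hom_ge_le (ge_of_P hE le_rfl) hF₂ h w', zero_comp] at hw'
  rw [hw, ← Category.assoc, hw', zero_comp] at hp
  obtain ⟨σ, hσ⟩ := co₂ hT (𝟙 E) (by rw [hp, comp_zero])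
  obtain ⟨σ', hσ'⟩ := co₂ hF σ (hom_ge_le (ge_of_P hE le_rfl) hF₂ h _)
  rw [IsZero.iff_id_eq_zero, hσ, hσ', Category.assoc, h₁, comp_zero]

variable [Linear ℂ C] {S : SerreFunctor C} {K : ℤ → C}

/-- Dimensions of Hom spaces in degrees at most 0. -/
noncomputable def lowDim (F G : C) (k : ℤ) : ℕ :=
  if k ≤ 0 then Module.finrank ℂ (F ⟶ G⟦k⟧) else 0

/-- The truncated Euler characteristic. -/
noncomputable def lowChi (F G : C) : ℤ := ∑ᶠ k : ℤ, (k.negOnePow : ℤ) * (lowDim F G k : ℤ)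

omit [IsTriangulated C] in
theorem les_HdE (hfin : ∀ E F : C, FiniteDimensional ℂ (E ⟶ F)) (F : C) (hT : Tr A G B) :
    ∃ r s t : ℤ → ℕ, (∀ k, Module.finrank ℂ (F ⟶ A⟦k + 1⟧) = t k + r (k + 1)) ∧
      (∀ k, Module.finrank ℂ (F ⟶ G⟦k⟧) = r k + s k) ∧
      ∀ k, Module.finrank ℂ (F ⟶ B⟦k⟧) = s k + t k := by
  obtain ⟨T, hT', rfl, rfl, rfl⟩ : ∃ T ∈ distTriang C, T.obj₁ = A ∧ T.obj₂ = G ∧ T.obj₃ = B := by
    obtain ⟨f, g, k, hT⟩ := hT
    exact ⟨_, hT, rfl, rfl, rfl⟩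
  have hk := fun k : ℤ => Triangle.shift_distinguished T hT' k
  refine ⟨fun k => rho_JChiAdd F ((Triangle.shiftFunctor C k).obj T).mor₁,
    fun k => rho_JChiAdd F ((Triangle.shiftFunctor C k).obj T).mor₂,
    fun k => rho_JChiAdd F ((Triangle.shiftFunctor C k).obj T).mor₃, fun k => ?_,
    fun k => rho_tri_JChiAdd F _ (hk k), fun k => rho_tri_JChiAdd F _ (rot_of_distTriang _ (hk k))⟩
  have h := rho_tri_JChiAdd F _ (rot_of_distTriang _ (rot_of_distTriang _ (hk k)))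
  let e := shiftFunctorAdd' C k 1 (k + 1) rfl
  have h1 : Module.finrank ℂ (F ⟶ T.obj₁⟦k + 1⟧) = Module.finrank ℂ (F ⟶ T.obj₁⟦k⟧⟦(1 : ℤ)⟧) :=
    finrank_iso_JChiAdd (Iso.refl F) (e.app T.obj₁)
  refine h1.trans (h.trans ?_)
  congr 1
  change rho_JChiAdd F (-(k.negOnePow • T.mor₁⟦k⟧')⟦(1 : ℤ)⟧') =
    rho_JChiAdd F ((k + 1).negOnePow • T.mor₁⟦k + 1⟧')
  rw [← rho_iso_JChiAdd F (e.app T.obj₁)]
  refine rho_congr_JChiAdd F _ _ fun w => ?_
  have hn : (e.app T.obj₁).hom ≫ (-(k.negOnePow • T.mor₁⟦k⟧')⟦(1 : ℤ)⟧') =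
      ((k + 1).negOnePow • T.mor₁⟦k + 1⟧') ≫ (e.app T.obj₂).hom := by
    have := e.hom.naturality T.mor₁
    simp only [Functor.comp_map] at this
    simp only [Iso.app_hom, Int.negOnePow_succ, Units.neg_smul, Preadditive.neg_comp,
      Preadditive.comp_neg, Functor.map_units_smul, Linear.units_smul_comp,
      Linear.comp_units_smul, this]
  rw [hn, ← Category.assoc]
  constructor
  · intro h0
    rw [← cancel_mono (e.app T.obj₂).hom, h0, zero_comp]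
  · intro h0
    rw [h0, zero_comp]

theorem fin_HdE {x y : ℤ → ℕ} (hy : {k | y k ≠ 0}.Finite) (h : ∀ k, x k ≤ y k) :
    {k | x k ≠ 0}.Finite := hy.subset fun k hk h0 => hk (Nat.le_zero.1 (h0 ▸ h k))

theorem mono_HdE {x y : ℤ → ℕ} (hx : {k | x k ≠ 0}.Finite) (hy : {k | y k ≠ 0}.Finite)
    (h : ∀ k : ℤ, (k.negOnePow : ℤ) * (x k : ℤ) ≤ (k.negOnePow : ℤ) * (y k : ℤ)) :
    ∑ᶠ k : ℤ, (k.negOnePow : ℤ) * (x k : ℤ) ≤ ∑ᶠ k : ℤ, (k.negOnePow : ℤ) * (y k : ℤ) :=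
  finsum_le_finsum' (hx.subset fun k hk h0 => hk (by simp [h0]))
    (hy.subset fun k hk h0 => hk (by simp [h0])) h

omit [HasZeroObject C] [∀ n : ℤ, (shiftFunctor C n).Additive] [Pretriangulated C]
  [IsTriangulated C] in
theorem AbsHyp.low_fin (H : AbsHyp S c) (F G : C) : {k | lowDim F G k ≠ 0}.Finite :=
  fin_HdE (H.finType F G) fun k => by
    unfold lowDim
    split_ifs <;> simp

omit [HasZeroObject C] [∀ n : ℤ, (shiftFunctor C n).Additive] [Pretriangulated C]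
  [IsTriangulated C] in
theorem lowChi_zero (h : ∀ k ≤ (0 : ℤ), ∀ u : F ⟶ G⟦k⟧, u = 0) : lowChi F G = 0 :=
  finsum_eq_zero_of_forall_eq_zero fun k => by
    unfold lowDim
    split_ifs with hk
    · have := subsingleton_of_forall_eq 0 (h k hk)
      simp [Module.finrank_zero_of_subsingleton]
    · simp

theorem HdCtx.dropF (H : HdCtx S c P) {s a : ℝ} (hT : Tr A F B) (hA : P.P s A) (hG : P.le a G)
    (h : a - 1 < s) : lowChi B G ≤ lowChi F G := by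
  obtain ⟨f, g, w, hT⟩ := hT
  refine mono_HdE (H.hyp.low_fin _ _) (H.hyp.low_fin _ _) fun k => ?_
  unfold lowDim
  split_ifs with hk
  swap
  · exact le_rfl
  have := H.hyp.fin
  have hk' : (k : ℝ) ≤ 0 := by exact_mod_cast hk
  have hG' := (Sh.shift P k).le_iff.2 hG
  have hi : Function.Injective (Linear.leftComp ℂ (G⟦k⟧) g) :=
    (injective_iff_map_eq_zero _).2 fun u hu => by
      obtain ⟨v, rfl⟩ := yo₃ hT u hu
      rw [hom_ge_le (ge_of_P ((P.shift _ _).2 hA) le_rfl) hG' (by linarith) v, comp_zero]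
  rcases hk.eq_or_lt with rfl | hk
  · simpa using LinearMap.finrank_le_finrank_of_injective hi
  · have hk'' : (k : ℝ) ≤ -1 := by exact_mod_cast (show k ≤ -1 by omega)
    rw [(LinearEquiv.ofBijective _ ⟨hi, fun u => ?_⟩).finrank_eq]
    obtain ⟨v, hv⟩ := yo₂ hT u (hom_ge_le (ge_of_P hA le_rfl) hG' (by linarith) _)
    exact ⟨v, hv.symm⟩

theorem HdCtx.dropG (H : HdCtx S c P) {a : ℝ} (hT : Tr A G B) (hA : P.P a A)
    (hF : P.le (a - 2 / 3) F) : chi F A + lowChi F B ≤ lowChi F G := by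
  have := S.isEquiv
  obtain ⟨r, s, t, e₁, e₂, e₃⟩ := les_HdE H.hyp.fin F hT
  have e := sum_JChiAdd (fun k => if k = 1 then t 0 else lowDim F A k) (lowDim F G) (lowDim F B)
    (fun k => if k ≤ 0 then r k else 0) (fun k => if k ≤ 0 then s k else 0)
    (fun k => if k ≤ 0 then t k else 0) (H.hyp.low_fin _ _) (H.hyp.low_fin _ _)
    (fun k => by
      unfold lowDim
      rw [e₁]
      split_ifs with h₁ <;> first | omega | rfl | (rw [show k = 0 by omega]; rfl))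
    (fun k => by
      unfold lowDim
      rw [e₂]
      split_ifs <;> rfl)
    (fun k => by
      unfold lowDim
      rw [e₃]
      split_ifs <;> rfl)
  have h₁ : t 0 ≤ Module.finrank ℂ (F ⟶ A⟦(1 : ℤ)⟧) := (Nat.le_add_right _ _).trans (e₁ 0).ge
  refine le_of_le_of_eq (add_le_add_left (mono_HdE (H.hyp.finType _ _)
    (fin_HdE (H.hyp.finType F A) fun k => ?_) fun k => ?_) _) e.symm
  · unfold lowDim
    split_ifs with h h'
    · rwa [h]
    · exact le_rfl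
    · exact Nat.zero_le _
  · unfold lowDim
    split_ifs with h h'
    · subst h
      simpa using h₁
    · exact le_rfl
    · have h₂ : (2 : ℝ) ≤ k := by exact_mod_cast (show 2 ≤ k by omega)
      have := subsingleton_of_forall_eq 0 (serre_zero_HdA (S := S) (hom_ge_le
        (ge_of_P ((Sh.shift P k a A).2 hA) le_rfl) (H.sh.le_iff.2 hF) (by linarith)))
      rw [Module.finrank_zero_of_subsingleton]

/-- A difference of phases at which the Euler form vanishes. -/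
def Neut (d : ℝ) : Prop := ∃ n : ℤ, d = 2 / 3 + n

omit [IsTriangulated C] in
theorem HdCtx.chi_twr (H : HdCtx S c P) {a : ℝ} (hA : P.P a A) (h0 : ¬ IsZero A) (h : Twr P F l)
    (hl : ∀ s ∈ l, s ≤ a - 2 / 3 ∧ (a - s ≤ 5 / 3 ∨ Neut (a - s))) :
    0 ≤ chi F A ∧ ((∃ s ∈ l, 2 / 3 < a - s ∧ a - s < 5 / 3) → 0 < chi F A) := by
  obtain ⟨κ, hκ, e⟩ := H.hyp.euler
  obtain ⟨n, hn, e'⟩ := H.nice.phase a A hA h0
  induction h with
  | nil E h =>
    have : (chi E A : ℝ) = 0 := by simp [e, H.add.zero h]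
    exact ⟨by exact_mod_cast this.ge, by simp⟩
  | cons X E E' t l hT hX hX0 _ _ ih =>
    have ih' := ih fun s hs => hl s (List.mem_cons_of_mem _ hs)
    obtain ⟨m, hm, e''⟩ := H.nice.phase t X hX hX0
    have e₁ : (chi E A : ℝ) = κ * (m * (n * sin (π * (a - (t + 2 / 3))))) + chi E' A := by
      rw [← rim_ex, ← e', ← eul_HdA, ← e'', e, e, H.add _ _ _ hT, map_add, mul_add, add_mul,
        Complex.add_re]
      ring
    have h₁ : 0 ≤ sin (π * (a - (t + 2 / 3))) := by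
      obtain ⟨h₂, h₃ | ⟨j, h₃⟩⟩ := hl t List.mem_cons_self
      · exact sin_nonneg_of_nonneg_of_le_pi (by nlinarith [pi_pos]) (by nlinarith [pi_pos])
      · rw [show π * (a - (t + 2 / 3)) = j * π by linear_combination π * h₃, sin_int_mul_pi]
    have h₂ : (0 : ℝ) ≤ chi E' A := by exact_mod_cast ih'.1
    refine ⟨by exact_mod_cast (e₁ ▸ by positivity : (0 : ℝ) ≤ chi E A), fun ⟨s, hs, h₃, h₄⟩ => ?_⟩
    rcases List.mem_cons.1 hs with rfl | hs
    · have := sin_pos_of_pos_of_lt_pi (x := π * (a - (s + 2 / 3))) (by nlinarith [pi_pos])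
        (by nlinarith [pi_pos])
      exact_mod_cast (e₁ ▸ by positivity : (0 : ℝ) < chi E A)
    · have : (0 : ℝ) < chi E' A := by exact_mod_cast ih'.2 ⟨s, hs, h₃, h₄⟩
      exact_mod_cast (e₁ ▸ by positivity : (0 : ℝ) < chi E A)

theorem HdCtx.low_pos (H : HdCtx S c P) (hG : Twr P G l') (hF : Twr P F l)
    (h : ∀ s ∈ l, ∀ t ∈ l', t - s ≤ 5 / 3 ∨ Neut (t - s)) : 0 ≤ lowChi F G ∧
      ((∃ s ∈ l, ∃ t ∈ l', 2 / 3 < t - s ∧ t - s < 5 / 3) → 0 < lowChi F G) := by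
  induction hG generalizing F l with
  | nil G hG =>
    exact ⟨(lowChi_zero fun k _ u => ((shiftFunctor C k).map_isZero hG).eq_of_tgt _ _).ge,
      by simp⟩
  | cons A G G' a l' hT hA hA0 hl' hG' ih =>
    have hle : ∀ t ∈ a :: l', t ≤ a := fun t ht =>
      (List.mem_cons.1 ht).elim le_of_eq fun h => (hl' t h).le
    induction hF with
    | nil F hF => exact ⟨(lowChi_zero fun k _ u => hF.eq_of_src _ _).ge, by simp⟩
    | cons X F F' s l hT' hX hX0 hl hF' ih' =>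
      rcases lt_or_ge (a - 2 / 3) s with hs | hs
      · have h₁ := H.dropF hT' hX ((Twr.cons _ _ _ _ _ hT hA hA0 hl' hG').le hle) (by linarith)
        have h₂ := ih' fun r hr => h r (List.mem_cons_of_mem _ hr)
        refine ⟨h₂.1.trans h₁, fun ⟨r, hr, t, ht, h₃, h₄⟩ => (h₂.2 ⟨r, ?_, t, ht, h₃, h₄⟩).trans_le h₁⟩
        refine (List.mem_cons.1 hr).resolve_left fun e => ?_
        linarith [hle t ht]
      · have hF := Twr.cons _ _ _ _ _ hT' hX hX0 hl hF'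
        have hs' : ∀ r ∈ s :: l, r ≤ a - 2 / 3 := fun r hr =>
          (List.mem_cons.1 hr).elim (fun e => e ▸ hs) fun h => (hl r h).le.trans hs
        have h₁ := H.dropG hT hA (hF.le hs')
        have h₂ := ih hF fun r hr t ht => h r hr t (List.mem_cons_of_mem _ ht)
        have h₃ := H.chi_twr hA hA0 hF fun r hr => ⟨hs' r hr, h r hr a List.mem_cons_self⟩
        refine ⟨by linarith [h₂.1, h₃.1], fun ⟨r, hr, t, ht, h₄, h₅⟩ => ?_⟩
        rcases List.mem_cons.1 ht with rfl | ht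
        · linarith [h₂.1, h₃.2 ⟨r, hr, h₄, h₅⟩]
        · linarith [h₃.1, h₂.2 ⟨r, hr, t, ht, h₄, h₅⟩]

theorem HdCtx.band (H : HdCtx S c P) (hF : Q.gt 0 F) (hG : Q.le 0 G) (hl : Twr P F l)
    (hl' : Twr P G l') : ∀ s ∈ l, ∀ t ∈ l', t - s ≤ 2 / 3 ∨ Neut (t - s) := by
  obtain ⟨j, hj⟩ : ∃ j : ℕ, ∀ s ∈ l, ∀ t ∈ l', t - s ≤ 2 / 3 + j ∨ Neut (t - s) := by
    obtain ⟨x, hx⟩ := l.finite_toSet.bddBelow
    obtain ⟨y, hy⟩ := l'.finite_toSet.bddAbove
    obtain ⟨j, hj⟩ := exists_nat_ge (y - x)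
    exact ⟨j, fun s hs t ht => Or.inl (by linarith [hx hs, hy ht])⟩
  induction j with
  | zero => simpa using hj
  | succ j ih =>
    refine ih fun s hs t ht => ?_
    have h₁ := (H.low_pos hl' (hl.shift j) fun r hr t ht => by
      obtain ⟨s, hs, rfl⟩ := List.mem_map.1 hr
      rcases hj s hs t ht with h | ⟨n, h⟩
      · exact Or.inl (by push_cast at h ⊢; linarith)
      · exact Or.inr ⟨n - j, by push_cast; linarith⟩).2
    rw [lowChi_zero fun k hk => hom_gt_le ((Sh.shift Q j).gt_iff.2 hF) ((Sh.shift Q k).le_iff.2 hG)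
      (by have : (k : ℝ) ≤ 0 := by exact_mod_cast hk
          push_cast
          linarith [j.cast_nonneg (α := ℝ)])] at h₁
    by_contra hc
    obtain ⟨h₂, h₃⟩ := not_or.1 hc
    rcases ((hj s hs t ht).resolve_right h₃).eq_or_lt with h | h
    · exact h₃ ⟨j + 1, by push_cast at h ⊢; linarith⟩
    · exact lt_irrefl _ (h₁ ⟨_, List.mem_map.2 ⟨s, hs, rfl⟩, t, ht, by push_cast; linarith,
        by push_cast at h ⊢; linarith⟩)

theorem HdCtx.gap (H : HdCtx S c P) (hK : KHyp S K) {a b : ℝ} (hF : Q.gt 0 F) (hG : Q.le 0 G)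
    (hb : P.Bot b F) (ha : P.Top a G) : a ≤ b + 2 / 3 := by
  by_contra hc
  obtain ⟨l, hl, hb'⟩ := hb.twr
  obtain ⟨l', hl', ha'⟩ := ha.twr
  obtain ⟨n, hn⟩ := (H.band hF hG hl hl' b hb' a ha').resolve_left (by linarith [not_le.1 hc])
  have h₁ : (1 : ℝ) ≤ n := by
    have : ((0 : ℤ) : ℝ) < n := by push_cast; linarith [not_le.1 hc]
    have := Int.cast_lt.1 this
    exact_mod_cast (show 1 ≤ n by omega)
  have int : ∀ (j : ℤ) (x : ℝ), x = j → x ≤ 0 ∨ 1 ≤ x := fun j x e => by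
    rw [e]
    exact_mod_cast (show j ≤ 0 ∨ 1 ≤ j by omega)
  obtain ⟨x, E, x₁, x₂, hE, h0⟩ := H.dense hK (show a - 1 < a - 2 / 3 by linarith)
  obtain ⟨F', G', hT, hF', hG'⟩ := Q.cut_gt 0 E
  obtain ⟨F₁, F₂, hT₁, hF₁, hF₂⟩ := twr_cut (y := a - 5 / 3) (y' := a - 2 / 3) (E := F')
    fun l₁ h s hs => by
      rcases H.band hF' hG h hl' s hs a ha' with h | ⟨j, h⟩
      · exact Or.inr (by linarith)
      · rcases int (1 - j) (s - (a - 5 / 3)) (by push_cast; linarith) with h | h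
        · exact Or.inl (by linarith)
        · exact Or.inr (by linarith)
  obtain ⟨G₁, G₂, hT₂, hG₁, hG₂⟩ := twr_cut (y := a - 1) (y' := a) (E := G')
    fun l₁ h t ht => by
      rcases H.band hF hG' hl h b hb' t ht with h | ⟨j, h⟩
      · exact Or.inl (by linarith)
      · rcases int (j - n + 1) (t - (a - 1)) (by push_cast; linarith) with h | h
        · exact Or.inl (by linarith)
        · exact Or.inr (by linarith)
  exact h0 (chase_HdE hT hE hT₁ hT₂ (hF₁.mono (Iic_subset_Iio.2 x₂)) hF₂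
    (hG₁.mono (Iic_subset_Iio.2 (by linarith))) (hG₂.mono (Ici_subset_Ioi.2 x₁)) (by linarith)
    (by linarith))

theorem HdCtx.beta (H : HdCtx S c P) (hK : KHyp S K) (Q : Slicing C) :
    ∃ β : ℝ, (∀ F, Q.gt 0 F → P.ge β F) ∧ ∀ G, Q.le 0 G → P.le (β + 2 / 3) G := by
  obtain ⟨X, hX, -⟩ := H.hyp.frac
  obtain ⟨s, hs⟩ := Q.exists_bot hX
  obtain ⟨t, ht⟩ := Q.exists_top hX
  obtain ⟨b, hb⟩ := P.exists_bot hX
  obtain ⟨a, ha⟩ := P.exists_top hX
  obtain ⟨β, h₁, h₂⟩ := exists_between_of_forall_le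
    (s := {x : ℝ | ∃ G, Q.le 0 G ∧ P.Top (x + 2 / 3) G})
    (t := {x : ℝ | ∃ F, Q.gt 0 F ∧ P.Bot x F})
    ⟨a + (-⌈t⌉ : ℤ) - 2 / 3, X⟦-⌈t⌉⟧, ((Sh.shift Q _).le_iff.2 ht.1).mono (Ioi_subset_Ioi (by
      push_cast; linarith [Int.le_ceil t])), by
      rw [sub_add_cancel]; exact (Sh.shift P _).top ha⟩
    ⟨b + (⌈-s⌉ + 1 : ℤ), X⟦⌈-s⌉ + 1⟧, ((Sh.shift Q _).ge_iff.2 hs.1).mono (Iic_subset_Iio.2 (by
      push_cast; linarith [Int.le_ceil (-s)])), (Sh.shift P _).bot hb⟩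
    (by
      rintro x ⟨G, hG, hx⟩ y ⟨F, hF, hy⟩
      linarith [H.gap hK hF hG hy hx])
  refine ⟨β, fun F hF => ?_, fun G hG => ?_⟩
  · by_cases h0 : IsZero F
    · exact lf.zero h0
    · obtain ⟨x, hx⟩ := P.exists_bot h0
      exact hx.1.mono (Iio_subset_Iio (h₂ ⟨F, hF, hx⟩))
  · by_cases h0 : IsZero G
    · exact rt.zero h0
    · obtain ⟨x, hx⟩ := P.exists_top h0
      have := h₁ (a := x - 2 / 3) ⟨G, hG, by rwa [sub_add_cancel]⟩
      exact hx.1.mono (Ioi_subset_Ioi (by linarith))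

end Pool.Agent.MP_228983_ag

namespace Pool.Agent.MP_228983_ag

open CategoryTheory Limits Pretriangulated Set Real Slicing TensorProduct

/-- The determinant of two vectors of the plane. -/
def crs (z w : ℂ) : ℝ := z.re * w.im - z.im * w.re

theorem crs_add (z z' w : ℂ) : crs (z + z') w = crs z w + crs z' w := by
  simp only [crs, Complex.add_re, Complex.add_im]
  ring

theorem crs_ex (m t : ℝ) (w : ℂ) : crs (m * ex t) w = m * rim t w := by
  rw [rim, ← conj_ex]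
  simp [crs]
  ring

theorem dec_HdC {W : Type*} [AddCommGroup W] [Module ℝ W] (L : ℂ →ₗ[ℝ] W) (z : ℂ) :
    L z = z.re • L 1 + z.im • L Complex.I := by
  rw [← map_smul, ← map_smul, ← map_add, Complex.real_smul, Complex.real_smul, mul_one,
    Complex.re_add_im]

theorem crs_lin (L : ℂ →ₗ[ℝ] ℂ) (z w : ℂ) : crs (L z) (L w) = LinearMap.det L * crs z w := by
  rw [← LinearMap.det_toMatrix Complex.basisOneI, Matrix.det_fin_two, dec_HdC L z, dec_HdC L w]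
  simp [LinearMap.toMatrix_apply, crs]
  ring

theorem polar_HdC (l : ℂ →ₗ[ℝ] ℝ) (h : l ≠ 0) : ∃ r θ : ℝ, 0 < r ∧ ∀ z, l z = r * rim θ z := by
  let w : ℂ := ⟨l Complex.I, -l 1⟩
  have e : ∀ z, l z = crs w z := fun z => by
    rw [dec_HdC l z]
    simp only [crs, w, smul_eq_mul]
    ring
  refine ⟨‖w‖, w.arg / π, norm_pos_iff.2 fun h0 => h (LinearMap.ext fun z => ?_), fun z => ?_⟩
  · rw [e, h0]
    simp [crs]
  · rw [e, ← crs_ex, ← polar_JGL]

theorem ex_neg_one_HdC : ex (-1) = -1 := by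
  apply Complex.ext
  · rw [ex_re]
    simp
  · rw [ex_im]
    simp

theorem lin_HdC {W : Type*} [AddCommGroup W] [Module ℝ W] {v w : ℂ} (a b : W) (hv : v ≠ 0)
    (hw : w.im ≠ 0) : ∃ L : ℂ →ₗ[ℝ] W, L v = a ∧ L (w * v) = b := by
  let D : ℂ →ₗ[ℝ] ℂ := LinearMap.mulRight ℝ v⁻¹
  let β : ℂ →ₗ[ℝ] ℝ := w.im⁻¹ • Complex.imLm
  refine ⟨((Complex.reLm - w.re • β).smulRight a + β.smulRight b) ∘ₗ D, ?_, ?_⟩
  · simp [D, β, mul_inv_cancel₀ hv]
  · simp [D, β, mul_inv_cancel_right₀ hv, inv_mul_cancel₀ hw]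

variable {C : Type u} [Category.{v} C] [Preadditive C] [HasZeroObject C] [HasShift C ℤ]
  [∀ n : ℤ, (shiftFunctor C n).Additive] [Pretriangulated C]

variable {c : C → ℂ} {P Q : Slicing C} {E F G : C}

theorem le_succ_HdC {r x : ℝ} (h : ∀ E, P.le x E → Q.le r E) (hE : P.le (x + 1) E) :
    Q.le (r + 1) E := by
  have h₁ : P.le x (E⟦(-1 : ℤ)⟧) := by
    have := (P.sh_neg_one.le_iff (c := x + 1)).2 hE
    rwa [add_neg_cancel_right] at this
  refine (Q.sh_neg_one.le_iff (c := r + 1)).1 ?_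
  rw [add_neg_cancel_right]
  exact h _ h₁

theorem comp_gt_HdC (g : GLt) {t : ℝ} : (Q.comp g).gt t E ↔ Q.gt (g.f t) E :=
  ⟨fun h s hs D hD => h (g.f.symm s) (g.f.symm_apply_le.2 hs) D (by
    rwa [Slicing.comp_P, g.f.apply_symm_apply]), fun h s hs D hD => h _ (g.f.monotone hs) D hD⟩

theorem comp_le_HdC (g : GLt) {t : ℝ} : (Q.comp g).le t E ↔ Q.le (g.f t) E :=
  ⟨fun h s hs D hD => h (g.f.symm s) (g.f.lt_symm_apply.2 hs) D (by
    rwa [Slicing.comp_P, g.f.apply_symm_apply]), fun h s hs D hD => h _ (g.f.strictMono hs) D hD⟩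

variable [IsTriangulated C]

theorem same_HdC (hP : P.Ph c) (hQ : Q.Ph c) (h : AddZ c) {θ : ℝ}
    (hU : ∀ F, Q.gt θ F → P.ge θ F) (hV : ∀ G, Q.le θ G → P.le θ G) (t : ℝ) (E : C) :
    Q.P t E ↔ P.P t E := by
  have k₀ : ∀ E, P.lt θ E → Q.le θ E := fun E hE _ hs D hD =>
    hom_ge_lt (hU D (gt_of_P hD hs)) hE le_rfl
  have k₁ : ∀ E, P.P θ E → Q.le θ E := fun E hE => by
    obtain ⟨A, B, hT, hA, hB⟩ := Q.cut_gt θ E
    have hA₁ : P.P θ A := P_of_ge_le (hU A hA) (rt.ext₁ hT (le_of_P hE le_rfl) (hV B hB)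
      fun s hs => by simp only [mem_Ioi] at hs ⊢; linarith)
    have hA₂ : Q.le (θ + 1) A := by
      refine (Q.sh_neg_one.le_iff (c := θ + 1)).1 ?_
      rw [add_neg_cancel_right]
      exact k₀ _ (lt_of_P ((P.sh_neg_one θ A).2 hA₁) (by linarith))
    obtain ⟨m, -, -, e, -⟩ := hP.rim_eq h hA₁ (θ + 1)
    obtain ⟨m₁, hm₁, hm₁', -, e₁⟩ := hP.rim_eq h hA₁ θ
    have hA₃ := (hQ.below h (by rwa [add_sub_cancel_right]) hA₂).2 (by
      rw [e, show π * (θ - (θ + 1)) = -π by ring, sin_neg, sin_pi, neg_zero, mul_zero])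
    obtain ⟨m₂, hm₂, -, -, e₂⟩ := hQ.rim_eq h hA₃ θ
    rw [e₁, sub_self, mul_zero, cos_zero, add_sub_cancel_left, mul_one π, cos_pi] at e₂
    obtain ⟨e'⟩ := hT.iso_of_zero₁ (hm₁' (by linarith))
    exact hB.iso e'.symm
  have k₂ : ∀ E, P.le θ E → Q.le θ E := fun E hE => by
    obtain ⟨A, B, hT, hA, hB⟩ := P.cut_ge θ E
    exact rt.ext hT (k₁ A (P_of_ge_le hA (rt.ext₁ hT hE hB fun s hs => by
      simp only [mem_Ioi, mem_Ici] at hs ⊢; linarith))) (k₀ B hB)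
  have k₃ : ∀ t E, θ < t → t ≤ θ + 1 → P.P t E → Q.P t E := fun t E ht ht' hE => by
    have hE₁ : Q.gt θ E := fun _ hs D hD =>
      hom_gt_le (gt_of_P hE ht) (hV D (le_of_P hD hs)) le_rfl
    obtain ⟨A, B, hT, hA, hB⟩ := Q.cut_gt t E
    have hA₁ : Q.le (θ + 1) A := rt.ext₁ hT (le_succ_HdC k₂ (le_of_P hE ht')) hB fun s hs => by
      simp only [mem_Ioi] at hs ⊢; linarith
    have hA₂ : P.le t A := rt.ext₁ hT (le_of_P hE le_rfl)
      (le_succ_HdC hV (hB.mono (Ioi_subset_Ioi ht'))) fun s hs => by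
        simp only [mem_Ioi] at hs ⊢; linarith
    have hA₃ : P.gt (t - 1) A := fun s hs D hD =>
      hom_gt_le hA (k₂ D (le_of_P hD (by linarith [mem_Iic.1 hs]))) ht.le
    have h₁ := hP.below h hA₃ hA₂
    have h₂ := hQ.above h (hA.mono Iio_subset_Iic_self)
      (hA₁.mono (Ici_subset_Ioi.2 (by linarith)))
    have hA₄ : IsZero A := (IsZero.iff_id_eq_zero _).2
      (hA _ (mem_Iic.2 le_rfl) _ (h₂.2 (le_antisymm h₁.1 h₂.1)) _)
    obtain ⟨e⟩ := hT.iso_of_zero₁ hA₄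
    refine (hQ.below h (hE₁.mono (Iic_subset_Iic.2 (by linarith))) (hB.iso e.symm)).2 ?_
    obtain ⟨m, -, -, e, -⟩ := hP.rim_eq h hE t
    simp [e]
  have key : ∀ t E, P.P t E → Q.P t E := fun t E hE =>
    (Sh.shift Q ⌊θ + 1 - t⌋ t E).1 (k₃ _ _ (by linarith [Int.lt_floor_add_one (θ + 1 - t)])
      (by linarith [Int.floor_le (θ + 1 - t)]) ((Sh.shift P _ t E).2 hE))
  refine ⟨fun hE => P_of_ge_le (fun s hs D hD => ?_) fun s hs D hD => ?_, key t E⟩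
  · exact Q.hom_zero _ _ _ _ hs hE (key s D hD)
  · exact Q.hom_zero _ _ _ _ hs (key s D hD) hE

theorem semi_HdC {L : ℂ →ₗ[ℝ] ℂ} (hQ : Q.Ph fun E => L (c E)) (hL : LinearMap.det L = 0)
    (h₁ : Q.gt 0 E) (h₂ : Q.le 1 E) : ∃ s, Q.P s E := by
  by_cases h0 : IsZero E
  · exact ⟨0, Q.zero _ _ h0⟩
  obtain ⟨b, hb⟩ := Q.exists_bot h0
  obtain ⟨a, ha⟩ := Q.exists_top h0
  obtain ⟨-, B, -, -, hB, hB'⟩ := hb.tr
  obtain ⟨A, -, -, hA, hA', -⟩ := ha.tr
  obtain ⟨m, hm, e⟩ := hQ a A hA hA'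
  obtain ⟨n, hn, e'⟩ := hQ b B hB hB'
  have h₃ := crs_lin L (c B) (c A)
  simp only at e e'
  rw [hL, zero_mul, e, e', crs_ex, rim_ex] at h₃
  have h₄ : 0 < b := lt_of_not_ge fun h => hb.2 (h₁.mono (Iic_subset_Iic.2 h))
  have h₅ : a ≤ 1 := le_of_not_gt fun h => ha.2 (h₂.mono (Ici_subset_Ioi.2 h))
  rcases (le_of_ge_le hb.1 ha.1 h0).eq_or_lt with rfl | hab
  · exact ⟨b, P_of_ge_le hb.1 ha.1⟩
  · exact absurd h₃ (mul_pos hn (mul_pos hm (sin_pos_of_pos_of_lt_pi (by nlinarith [pi_pos])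
      (by nlinarith [pi_pos])))).ne'

variable [Linear ℂ C] {S : SerreFunctor C} {K : ℤ → C}

theorem HdCtx.theta (H : HdCtx S c P) (hK : KHyp S K) (θ : ℝ)
    (hl : ∀ E, Q.gt 0 E → Q.le 1 E → 0 ≤ rim θ (c E)) : ∃ k : ℤ,
    (∀ F, Q.gt 0 F → P.ge (θ + 2 * k) F) ∧ ∀ G, Q.le 0 G → P.le (θ + 2 * k) G := by
  obtain ⟨β, hU, hV⟩ := H.beta hK Q
  obtain ⟨x, E, h₁, h₂, hE, h0⟩ := H.dense hK (show β + 2 / 3 < β + 1 by linarith)
  obtain ⟨m, hm, e⟩ := H.nice.phase x E hE h0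
  have h₃ := hl E (of_gt_HdA hV (gt_of_P hE h₁))
    (le_one_HdA (fun E => of_lt_HdA hU) (lt_of_P hE h₂))
  obtain ⟨k, hk, hk'⟩ : ∃ k : ℤ, θ + 2 * k ≤ x ∧ x < θ + 2 * k + 2 :=
    ⟨⌊(x - θ) / 2⌋, by linarith [Int.floor_le ((x - θ) / 2)],
      by linarith [Int.lt_floor_add_one ((x - θ) / 2)]⟩
  rw [← rim_add_two_mul θ k, e, rim_ex] at h₃
  have h₄ : x ≤ θ + 2 * k + 1 := le_of_not_gt fun h => by
    have := sin_pos_of_pos_of_lt_pi (x := π * (x - (θ + 2 * k)) - π) (by nlinarith [pi_pos])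
      (by nlinarith [pi_pos])
    rw [sin_sub_pi] at this
    nlinarith [mul_pos hm this]
  exact ⟨k, theta_HdA H.nice.phase H.add hU hV (by linarith) (by linarith) fun E h h' => by
    rw [rim_add_two_mul]
    exact hl E h h'⟩

theorem HdCtx.det_nonneg (H : HdCtx S c P) (hK : KHyp S K) {L : ℂ →ₗ[ℝ] ℂ}
    (hQ : Q.Ph fun E => L (c E)) {θ : ℝ} (hU : ∀ F, Q.gt 0 F → P.ge θ F)
    (hV : ∀ G, Q.le 0 G → P.le θ G) : 0 ≤ LinearMap.det L := by
  have hZ : AddZ fun E => L (c E) := fun A E B hT =>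
    (congrArg L (H.add _ _ _ hT)).trans (map_add L _ _)
  have hV' : ∀ G, Q.le 1 G → P.le (θ + 1) G := fun G hG =>
    le_succ_HdC hV (by rwa [zero_add])
  obtain ⟨x, E, h₁, h₂, hE, hE0⟩ := H.dense hK (show θ < θ + 1 / 6 by linarith)
  obtain ⟨y, E', h₃, h₄, hE', hE0'⟩ := H.dense hK (show θ + 5 / 6 < θ + 1 by linarith)
  have u₁ : Q.gt 0 E := of_gt_HdA hV (gt_of_P hE h₁)
  have u₂ : Q.gt 0 E' := of_gt_HdA hV (gt_of_P hE' (by linarith))
  have v₁ : Q.le 1 E := le_one_HdA (fun E => of_lt_HdA hU) (lt_of_P hE (by linarith))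
  have v₂ : Q.le 1 E' := le_one_HdA (fun E => of_lt_HdA hU) (lt_of_P hE' h₄)
  obtain ⟨s, hs⟩ := Q.exists_top hE0
  obtain ⟨t, ht⟩ := Q.exists_bot hE0'
  have s₁ : 0 < s := lt_of_not_ge fun h =>
    hE0 ((IsZero.iff_id_eq_zero _).2 (hom_gt_le u₁ hs.1 h _))
  have s₂ : s ≤ 1 := le_of_not_gt fun h => hs.2 (v₁.mono (Ici_subset_Ioi.2 h))
  have t₁ : 0 < t := lt_of_not_ge fun h => ht.2 (u₂.mono (Iic_subset_Iic.2 h))
  have t₂ : t ≤ 1 := le_of_ge_le ht.1 v₂ hE0'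
  obtain ⟨F, F', hT, hF, hF0, hF'⟩ := hs.tr
  obtain ⟨G', G, hT', hG', hG, hG0⟩ := ht.tr
  have f₁ : P.le x F := rt.ext₁ hT (le_of_P hE le_rfl)
    (hV' _ (hF'.mono (Ioi_subset_Ici_self.trans (Ici_subset_Ici.2 s₂)))) fun s hs => by
      simp only [mem_Ioi] at hs ⊢; linarith
  have g₁ : P.ge y G := lf.ext₃ hT' (ge_of_P hE' le_rfl)
    (hU _ (hG'.mono (Iic_subset_Iic.2 t₁.le))) fun s hs => by
      simp only [mem_Iio] at hs ⊢; linarith
  obtain ⟨b, hb⟩ := P.exists_bot hF0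
  obtain ⟨a, ha⟩ := P.exists_top hG0
  have b₁ : θ ≤ b := le_of_not_gt fun h =>
    hb.2 ((hU _ (gt_of_P hF s₁)).mono (Iic_subset_Iio.2 h))
  have a₁ : a ≤ θ + 1 := le_of_not_gt fun h =>
    ha.2 ((hV' _ (le_of_P hG t₂)).mono (Ici_subset_Ioi.2 h))
  obtain ⟨B₀, A₀, p, w, i, -, -, hw⟩ := exists_comp H.nice hb ha
    (by linarith [le_of_ge_le hb.1 f₁ hF0, le_of_ge_le g₁ ha.1 hG0]) (by linarith)
  have hst : s ≤ t := le_of_not_gt fun h => hw (Q.hom_zero _ _ _ _ h hF hG _)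
  have k₁ : 0 ≤ crs (L (c E)) (L (c E')) := by
    refine (hn_Ioc u₁ hs.1).ind (Q := fun X => 0 ≤ crs (L (c X)) (L (c E'))) (fun X hX => ?_)
      (fun A X B hT hA hB => ?_) fun r hr X hX => ?_
    · simp [H.add.zero hX, crs]
    · rw [H.add _ _ _ hT, map_add, crs_add]
      exact add_nonneg hA hB
    · by_cases hz : IsZero X
      · simp [H.add.zero hz, crs]
      · obtain ⟨m, hm, e⟩ := hQ r X hX hz
        simp only at e
        rw [e, crs_ex]
        exact mul_nonneg hm.le (hQ.above hZ (ht.1.mono (Iio_subset_Iio (hr.2.trans hst)))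
          (v₂.mono (Ici_subset_Ioi.2 (by linarith [hr.1])))).1
  obtain ⟨m, hm, e⟩ := H.nice.phase x E hE hE0
  obtain ⟨n, hn, e'⟩ := H.nice.phase y E' hE' hE0'
  rw [crs_lin, e, e', crs_ex, rim_ex] at k₁
  exact nonneg_of_mul_nonneg_left k₁ (mul_pos hm (mul_pos hn (sin_pos_of_pos_of_lt_pi
    (by nlinarith [pi_pos]) (by nlinarith [pi_pos]))))

omit [IsTriangulated C] in
theorem section_HdC (H : AbsHyp S c) (hc : ClsFacts S c) : ∃ J : ℂ →ₗ[ℝ] ℝ ⊗[ℤ] NumK C,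
    (∀ E, J (c E) = 1 ⊗ₜ cls E) ∧ ∀ (Z : NumK C →+ ℂ) (L : ℂ →ₗ[ℝ] ℂ),
      (∀ E, Z (cls E) = L (c E)) → ∀ z, Z.toIntLinearMap.liftBaseChange ℝ (J z) = L z := by
  obtain ⟨E₀, F₀, h0, h1⟩ := H.gen
  obtain ⟨J, h₂, h₃⟩ := lin_HdC ((1 : ℝ) ⊗ₜ[ℤ] cls E₀) ((1 : ℝ) ⊗ₜ[ℤ] cls F₀) h0 im_ne_JCls
  refine ⟨J, fun E => sub_eq_zero.1 ((Module.forall_dual_apply_eq_zero_iff ℝ _).1 fun φ => ?_),
    fun Z L hL z => ?_⟩
  · obtain ⟨L, hL⟩ := hc.factor ((Complex.ofRealCLM.toLinearMap ∘ₗ φ).toAddMonoidHom.comp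
      (TensorProduct.mk ℤ ℝ (NumK C) 1).toAddMonoidHom)
    have e := glS.ext L (Complex.ofRealCLM.toLinearMap ∘ₗ φ ∘ₗ J) _ _ h0 im_ne_JCls
      (by rw [← hL, LinearMap.comp_apply, LinearMap.comp_apply, h₂]; rfl)
      (by rw [LinearMap.comp_apply, LinearMap.comp_apply, h₃, ← h1, ← hL]; rfl)
    have e' : ((φ (1 ⊗ₜ cls E) : ℝ) : ℂ) = (φ (J (c E)) : ℝ) := by
      have := hL E
      rw [e] at this
      exact this
    rw [map_sub, Complex.ofReal_injective e', sub_self]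
  · exact LinearMap.congr_fun (glS.ext (Z.toIntLinearMap.liftBaseChange ℝ ∘ₗ J) L _ _ h0 im_ne_JCls
      (by rw [LinearMap.comp_apply, h₂, LinearMap.liftBaseChange_one_tmul, ← hL]; rfl)
      (by rw [LinearMap.comp_apply, h₃, LinearMap.liftBaseChange_one_tmul, ← h1, ← hL]; rfl)) z

theorem HdCtx.det_pos (H : HdCtx S c P) (hc : ClsFacts S c) (hK : KHyp S K) (τ : Stab C)
    {L : ℂ →ₗ[ℝ] ℂ} (hL : ∀ E, τ.Z (cls E) = L (c E))
    {Z : NumK C →+ ℂ} {M : ℂ ≃ₗ[ℝ] ℂ} (hM : ∀ E, Z (cls E) = M (c E)) :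
    0 < LinearMap.det L := by
  have hP : τ.toSlicing.Ph fun E => L (c E) := fun t E hE h0 => by
    obtain ⟨m, hm, e⟩ := τ.phase t E hE h0
    exact ⟨m, hm, (hL E).symm.trans e⟩
  have hZ : AddZ fun E => L (c E) := fun A E B hT =>
    (congrArg L (H.add _ _ _ hT)).trans (map_add L _ _)
  have hb : ∀ E, τ.toSlicing.gt 0 E → τ.toSlicing.le 1 E →
      0 ≤ (L (c E)).im ∧ ((L (c E)).im = 0 → τ.P 1 E) := fun E h h' => by
    simpa [rim, ex_neg_one_HdC] using hP.below hZ (by rwa [sub_self]) h'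
  obtain ⟨θ, hθ, hθ'⟩ : ∃ θ : ℝ, (∀ E, τ.toSlicing.gt 0 E → τ.toSlicing.le 1 E →
      0 ≤ rim θ (c E)) ∧ (LinearMap.det L = 0 → L (ex θ) = 0) := by
    have e₀ : ∀ θ, rim θ (ex θ) = 0 := fun θ => by simpa using rim_ex θ 1 θ
    by_cases h : Complex.imLm ∘ₗ L = 0
    · have h' : ∀ z, (L z).im = 0 := LinearMap.congr_fun h
      obtain ⟨r, θ, hr, e⟩ := polar_HdC (-(Complex.reLm ∘ₗ L)) fun h0 => by
        obtain ⟨X, hX, -⟩ := H.hyp.frac
        obtain ⟨b, hb⟩ := τ.toSlicing.exists_bot hX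
        obtain ⟨-, B, -, -, hB, hB'⟩ := hb.tr
        exact hB' (hP.zero_of hB (Complex.ext
          (neg_eq_zero.1 (LinearMap.congr_fun h0 (c B))) (h' _)))
      refine ⟨θ, fun E h₁ h₂ => ?_, fun _ => Complex.ext ?_ (h' _)⟩
      · obtain ⟨m, hm, -, -, e'⟩ := hP.rim_eq hZ ((hb E h₁ h₂).2 (h' _)) 1
        refine nonneg_of_mul_nonneg_right (e _ ▸ ?_) hr
        simp [rre, ex_neg_one_HdC] at e'
        simpa [e'] using hm
      · simpa [e₀] using e (ex θ)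
    · obtain ⟨r, θ, hr, e⟩ := polar_HdC _ h
      have e' : ∀ z, (L z).im = r * rim θ z := e
      refine ⟨θ, fun E h₁ h₂ => nonneg_of_mul_nonneg_right (e' _ ▸ (hb E h₁ h₂).1) hr,
        fun h0 => ?_⟩
      have e₁ : (L (ex θ)).im = 0 := by rw [e', e₀, mul_zero]
      have e₂ : (L (ex (θ + 1 / 2))).im = r := by
        have := rim_ex θ 1 (θ + 1 / 2)
        rw [show π * (θ + 1 / 2 - θ) = π / 2 by ring, sin_pi_div_two, Complex.ofReal_one,
          one_mul] at this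
        rw [e', this, mul_one, mul_one]
      have e₃ := crs_lin L (ex θ) (ex (θ + 1 / 2))
      rw [h0, zero_mul, crs, e₁, e₂, zero_mul, sub_zero] at e₃
      exact Complex.ext ((mul_eq_zero.1 e₃).resolve_right hr.ne') e₁
  obtain ⟨k, hU, hV⟩ := H.theta hK θ hθ
  refine (H.det_nonneg hK hP hU hV).lt_of_ne' fun h0 => ?_
  have h₁ := hθ' h0
  rw [← ex_add_two_mul θ k] at h₁
  generalize θ + 2 * k = η at *
  obtain ⟨J, hJ, hJ'⟩ := section_HdC H.hyp hc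
  obtain ⟨q, hq, hq'⟩ := τ.support
  have h₂ : q (J (ex η)) < 0 := hq _ (fun h => ex_ne_zero η (M.injective (by
    rw [map_zero]
    exact (hJ' Z M.toLinearMap hM _).symm.trans (by rw [h, map_zero])))) ((hJ' _ L hL _).trans h₁)
  have h₃ : Continuous fun x : ℝ => q (J (ex x)) := by
    simp only [dec_HdC J (ex _), QuadraticMap.map_add q, QuadraticMap.map_smul,
      QuadraticMap.polar_smul_left, QuadraticMap.polar_smul_right, ex_re, ex_im]
    fun_prop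
  obtain ⟨δ, hδ, h₄⟩ := Metric.eventually_nhds_iff.1
    (h₃.continuousAt.eventually_lt continuousAt_const h₂)
  obtain ⟨x, E, x₁, x₂, hE, hE0⟩ := H.dense hK (show η < η + min δ 1 by
    linarith [lt_min hδ one_pos])
  obtain ⟨s, hs⟩ := semi_HdC hP h0 (of_gt_HdA hV (gt_of_P hE x₁))
    (le_one_HdA (fun E => of_lt_HdA hU) (lt_of_P hE (by linarith [min_le_right δ 1])))
  obtain ⟨m, hm, e⟩ := H.nice.phase x E hE hE0
  have h₅ := hq' s E hs
  rw [← hJ, e, ← Complex.real_smul, map_smul, QuadraticMap.map_smul] at h₅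
  refine h₅.not_gt (mul_neg_of_pos_of_neg (mul_pos hm hm) (h₄ ?_))
  rw [Real.dist_eq, abs_of_pos (by linarith)]
  linarith [min_le_left δ 1]

theorem HdCtx.orbit (H : HdCtx S c P) (hc : ClsFacts S c) (hK : KHyp S K) (τ : Stab C)
    {Z : NumK C →+ ℂ} {M : ℂ ≃ₗ[ℝ] ℂ} (hM : ∀ E, Z (cls E) = M (c E)) :
    ∃ g : GLt, (∀ E, τ.Z (cls E) = g.M (c E)) ∧ ∀ t E, τ.P (g.f t) E ↔ P.P t E := by
  obtain ⟨L, hL⟩ := hc.factor τ.Z
  have hd := H.det_pos hc hK τ hL hM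
  obtain ⟨g, hg⟩ := glS.lift (LinearMap.equivOfDetNeZero L hd.ne') hd
  have h₁ : ∀ E, τ.Z (cls E) = g.M (c E) := fun E => by rw [hg, hL]; rfl
  obtain ⟨k, hU, hV⟩ := H.theta hK (Q := τ.toSlicing) (g.f.symm 0) fun E h h' => by
    have := (Ph.below (phase_JNice τ g c h₁) H.add (c := g.f.symm 0 + 1) ((comp_gt_HdC g).2 (by
      rwa [add_sub_cancel_right, g.f.apply_symm_apply])) ((comp_le_HdC g).2 (by
      rwa [g.add_one, g.f.apply_symm_apply, zero_add]))).1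
    rw [rim, neg_add, ex_add, ex_neg_one_HdC, mul_neg_one, mul_neg, Complex.neg_im] at this
    exact neg_nonpos.1 this
  have e : (g.mul (GLt.deck (-k))).f (g.f.symm 0 + 2 * k) = 0 := by simp
  exact ⟨g.mul (GLt.deck (-k)), h₁, same_HdC H.nice.phase
    (phase_JNice τ (g.mul (GLt.deck (-k))) c h₁) H.add
    (fun F hF => hU F (e ▸ (comp_gt_HdC _).1 hF)) fun G hG => hV G (e ▸ (comp_le_HdC _).1 hG)⟩

end Pool.Agent.MP_228983_ag

namespace Pool.Agent.MP_228983_ag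

open CategoryTheory Limits Pretriangulated Set Slicing TensorProduct

section

variable {C : Type u} [Category.{v} C] [Preadditive C] [HasZeroObject C] [HasShift C ℤ]
  [∀ n : ℤ, (shiftFunctor C n).Additive] [Pretriangulated C] [Linear ℂ C]

/-- The stability condition σ · g. -/
noncomputable def Stab.act (σ : Stab C) (g : GLt) : Stab C where
  toSlicing := σ.toSlicing.comp g
  Z := g.M.symm.toLinearMap.toAddMonoidHom.comp σ.Z
  phase t E hE h0 := by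
    obtain ⟨m, hm, e⟩ := σ.phase _ E hE h0
    obtain ⟨r, hr, e'⟩ := g.compat' t
    refine ⟨m / r, div_pos hm hr, ?_⟩
    change g.M.symm (σ.Z (cls E)) = _ * ex t
    rw [LinearEquiv.symm_apply_eq, e, ← Complex.real_smul (x := m / r), map_smul, e',
      Complex.real_smul, ← mul_assoc, ← Complex.ofReal_mul (m / r), div_mul_cancel₀ _ hr.ne']
    rfl
  support := by
    obtain ⟨q, hq, hq'⟩ := σ.support
    refine ⟨q, fun w hw h => hq w hw (g.M.symm.injective ?_), fun t E hE => hq' _ E hE⟩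
    rw [map_zero, ← h]
    clear h hw
    induction w using TensorProduct.induction_on with
    | zero => simp
    | tmul x y => exact map_smul g.M.symm x (σ.Z y)
    | add x y hx hy => rw [map_add, map_add, map_add, hx, hy]

variable {S : SerreFunctor C} {σ τ : Stab C} {c : C → ℂ} {K : ℤ → C}

theorem Stab.SerreInvariant.of_acts (hσ : σ.SerreInvariant S) {g : GLt} (h : σ.Acts g τ) :
    τ.SerreInvariant S := by
  obtain ⟨σ', k, ⟨m₁, m₂⟩, a₁, a₂⟩ := hσ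
  refine ⟨σ'.act g, g.inv.mul (k.mul g), ⟨fun E => ?_, fun t F => ?_⟩, fun w => ?_, fun t E => ?_⟩
  · rw [h.1, ← m₁]
    rfl
  · refine (m₂ (g.f t) F).trans (exists_congr fun E => ?_)
    rw [h.2]
  · rw [LinearEquiv.eq_symm_apply, h.1]
    change g.M.symm (k.M (g.M (g.M.symm (σ'.Z w)))) = _
    rw [LinearEquiv.apply_symm_apply, a₁, LinearEquiv.apply_symm_apply]
  · refine (a₂ (g.f t) E).trans ?_
    rw [h.2, GLt.mul_f, GLt.inv_f, OrderIso.apply_symm_apply, GLt.mul_f]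

theorem Stab.Heart.bounds {E : C} (h : σ.Heart E) : σ.toSlicing.gt 0 E ∧ σ.toSlicing.le 1 E := by
  obtain ⟨l, h', h⟩ := h
  induction h with
  | nil E h => exact ⟨lf.zero h, rt.zero h⟩
  | cons T hT t l _ h₃ ih =>
    have h₁ := ih fun s hs => h' s (List.mem_cons_of_mem _ hs)
    have h₂ := h' t List.mem_cons_self
    exact ⟨lf.ext (Tr.of hT) h₁.1 (gt_of_P h₃ h₂.1), rt.ext (Tr.of hT) h₁.2 (le_of_P h₃ h₂.2)⟩

variable [IsTriangulated C]

theorem homDim_of [∀ n : ℤ, (shiftFunctor C n).Linear ℂ] (H : AbsHyp S c)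
    (hτ : τ.SerreInvariant S) : τ.HomDimLE 3 := fun E F hE hF k hk => by
  have := S.isEquiv
  obtain ⟨g, -, hg⟩ := normS glS (clsS glS chiAddS) shUniqS S c H τ hτ
  have h₁ : (τ.toSlicing.comp g).le (g.f.symm 0 + 1) E := (comp_le_HdC g).2 (by
    rw [g.add_one, g.f.apply_symm_apply, zero_add]
    exact hE.bounds.2)
  have h₂ : (τ.toSlicing.comp g).gt (g.f.symm 0) F := (comp_gt_HdC g).2 (by
    rw [g.f.apply_symm_apply]
    exact hF.bounds.1)
  have h₃ : (4 : ℝ) ≤ k := by exact_mod_cast (show 4 ≤ k by omega)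
  exact serre_zero_HdA (S := S)
    (hom_gt_le ((Sh.shift _ k).gt_iff.2 h₂) (hg.le_iff.2 h₁) (by linarith))

theorem acts_abs [∀ n : ℤ, (shiftFunctor C n).Linear ℂ] (H : AbsHyp S c) (hK : KHyp S K)
    (hσ : σ.SerreInvariant S) (τ : Stab C) : ∃ g : GLt, σ.Acts g τ := by
  have hc : ClsStmt C := clsS glS chiAddS
  obtain ⟨g, g₁, g₂⟩ := normS glS hc shUniqS S c H σ hσ
  have H' : HdCtx S c (σ.toSlicing.comp g) :=
    ⟨H, fun _ _ _ ⟨_, _, _, hT⟩ => (hc S c H).add _ hT, (hc S c H).nat, g₂,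
      niceS S c H _ g₂ (phase_JNice σ g c g₁)⟩
  obtain ⟨k, k₁, k₂⟩ := H'.orbit (hc S c H) hK τ g₁
  refine ⟨g.mul k.inv, fun w => ?_, fun t E => ?_⟩
  · rw [LinearEquiv.eq_symm_apply]
    induction w using QuotientAddGroup.induction_on with
    | H w =>
      induction w using FreeAbelianGroup.induction_on with
      | zero => simp
      | of E =>
        change _ = σ.Z (cls E)
        rw [g₁, ← k.M.symm_apply_apply (c E), ← k₁]
        rfl
      | neg E ih => rw [QuotientAddGroup.mk_neg, map_neg, map_neg, map_neg, ih]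
      | add x y hx hy => rw [QuotientAddGroup.mk_add, map_add, map_add, map_add, hx, hy]
  · have h₃ := k₂ (k.f.symm t) E
    rwa [k.f.apply_symm_apply] at h₃

end

section

variable {A : Type} [CommRing A] [Algebra ℂ A] {𝒜 : ℤ → Submodule ℂ A} {C : Type u}
  [Category.{v} C] [Preadditive C] [Linear ℂ C] [HasShift C ℤ]

theorem serre_kos_HdD (m : Model 𝒜) (hP : PairFacts m) (Φ : MF m ⥤ C) (h : Orlov m Φ)
    (hN : OrlovNum m Φ) (S : SerreFunctor C) (j : ℤ) :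
    Nonempty (S.S.obj (Φ.obj (kos m j)) ≅ Φ.obj (kos m (j + 7))) := by
  have := h.additive
  have := h.linear
  have := h.full
  have := h.ess
  let c : (kos m j ⟶ kos m (j + 7)) →ₗ[ℂ] ℂ :=
    { toFun := fun w => MvPolynomial.constantCoeff (w.1 0 15)
      map_add' := fun _ _ => map_add _ _ _
      map_smul' := fun r w => MvPolynomial.constantCoeff_smul r _ }
  obtain ⟨σ, hσ⟩ := LinearMap.exists_rightInverse_of_surjective
    (Φ.mapLinearMap ℂ : (kos m j ⟶ kos m (j + 7)) →ₗ[ℂ] _)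
    (LinearMap.range_eq_top.2 Φ.map_surjective)
  have ht : ∀ w, c (σ (Φ.map w)) = c w := fun w => by
    rw [← sub_eq_zero, ← map_sub]
    refine hP.null j (σ (Φ.map w) - w) ((h.ker _ _ _).1 ?_)
    rw [Φ.map_sub, sub_eq_zero]
    exact LinearMap.congr_fun hσ _
  refine serreIdS C hN.fin S _ _ (c ∘ₗ σ) (fun E u hu => ?_) fun E v hv => ?_
  · let e := Φ.objObjPreimageIso E
    obtain ⟨u', hu'⟩ := Φ.map_surjective (u ≫ e.inv)
    rw [← cancel_mono e.inv, zero_comp, ← hu', h.ker]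
    refine hP.left j _ _ fun v => (ht _).symm.trans ?_
    rw [Φ.map_comp, hu', Category.assoc]
    exact hu _
  · let e := Φ.objObjPreimageIso E
    obtain ⟨v', hv'⟩ := Φ.map_surjective (e.hom ≫ v)
    rw [← cancel_epi e.hom, comp_zero, ← hv', h.ker]
    refine hP.right j _ _ fun u => (ht _).symm.trans ?_
    rw [Φ.map_comp, hv', ← Category.assoc]
    exact hv _

theorem deg_HdD (I : Fin 16) : -7 ≤ Kos.deg I ∧ (Kos.deg I = -7 → I = 15) := by
  revert I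
  decide +kernel

theorem deg_eleven_HdD : Kos.deg 11 = -5 := by decide +kernel

theorem kHyp_HdD (m : Model 𝒜) (hL : EvLFacts m) (hP : PairFacts m) (hχ : ChiStmt m)
    (Φ : MF m ⥤ C) (h : Orlov m Φ) (hN : OrlovNum m Φ) (S : SerreFunctor C) :
    KHyp S fun j => Φ.obj (kos m j) := by
  have := h.additive
  have := h.linear
  have := h.full
  refine ⟨fun j => ?_, fun j hj u => ?_, fun u => ?_, ?_, ?_⟩
  · obtain ⟨e₁⟩ := serre_kos_HdD m hP Φ h hN S j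
    obtain ⟨e₂⟩ := hP.sh (j + 1) 2
    obtain ⟨e₃⟩ := h.shift (kos m (j + 1)) 2
    rw [show j + 1 + 3 * 2 = j + 7 by ring] at e₂
    exact ⟨(shiftFunctor C (-2 : ℤ)).mapIso (e₁ ≪≫ Φ.mapIso e₂ ≪≫ e₃) ≪≫
      (shiftFunctorCompIsoId C (2 : ℤ) (-2) (by simp)).app _⟩
  · obtain ⟨u, rfl⟩ := Φ.map_surjective u
    refine (h.ker _ _ _).2 (hL.inj 0 _ u 0 fun k => ?_)
    rw [Matrix.mulVec_zero]
    refine hS.cc _ _ (fun h2 => ?_) (MF.hom_mem u k 15)
    simp only [Kos.deg_top] at h2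
    have := (deg_HdD k).1
    omega
  · obtain ⟨u, rfl⟩ := Φ.map_surjective u
    have e : Φ.map (u - MvPolynomial.constantCoeff (u.1 15 15) • 𝟙 _) = 0 := by
      refine (h.ker _ _ _).2 (hL.inj 0 _ _ 0 fun k => ?_)
      rw [Matrix.mulVec_zero]
      by_cases hk : k = 15
      · subst hk
        simp
      · refine hS.cc _ _ (fun h2 => hk ((deg_HdD k).2 ?_)) (MF.hom_mem _ k 15)
        simp only [Kos.deg_top] at h2
        omega
    rw [Φ.map_sub, Φ.map_smul, Φ.map_id, sub_eq_zero] at e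
    rw [e]
    generalize MvPolynomial.constantCoeff (u.1 15 15) = a
    by_cases ha : a = 0
    · exact Or.inl (by rw [ha, zero_smul])
    · exact Or.inr ⟨a⁻¹ • 𝟙 _, by simp [smul_smul, ha], by simp [smul_smul, ha]⟩
  · obtain ⟨u, hu⟩ := hL.surj 0 (kos m 2) (Pi.single 11 1) (fun k hk => Pi.single_eq_of_ne
      (fun e => hk (by rw [e]; exact congrArg (· - 2) deg_eleven_HdD)) _) (by
        rw [show (kos m 2).red = 0 from Matrix.ext (cc_kos_JPair m hS), Matrix.zero_mulVec])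
    refine ⟨Φ.map u, fun h0 => ?_⟩
    have := (hu 11).symm.trans (cc_null_JPair m hS u ((h.ker _ _ _).1 h0) 11 15)
    simp at this
  · have h1 : 3 * chi (Φ.obj (kos m 0)) (Φ.obj (kos m 0)) =
        -∑ i, ∑ k, eta ((kos m 0).a i - (kos m 0).a k) := by
      rw [← (hχ _ _).2, chi]
      congr 1
      exact finsum_congr fun k => by rw [hN.dim]
    rw [show (∑ i, ∑ k, eta ((kos m 0).a i - (kos m 0).a k) : ℤ) = 3 from kosSum_JGeoB] at h1
    omega

end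

variable {A : Type} [CommRing A] [Algebra ℂ A] [IsNoetherianRing A] {𝒜 : ℤ → Submodule ℂ A}
  [GrRing 𝒜]

theorem kHyp_main (m : Model 𝒜) (S : SerreFunctor (Orth (Oq 𝒜))) : ∃ K, KHyp S K := by
  obtain ⟨Φ, hΦ⟩ := orlov_main m
  have hL := evLS m hS (kosS hS)
  exact ⟨_, kHyp_HdD m hL (pairS m hS hL (evRS m hS (kosS hS))) (chi_main m) Φ hΦ
    (orlovNumS m hS Φ hΦ) S⟩

theorem all_main (m : Model 𝒜) (S : SerreFunctor (Orth (Oq 𝒜))) (σ τ : Stab (Orth (Oq 𝒜)))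
    (hσ : σ.SerreInvariant S) : ∃ g : GLt, σ.Acts g τ := by
  obtain ⟨c, hc⟩ := geo_main m S
  obtain ⟨K, hK⟩ := kHyp_main m S
  have := fun n => orthShiftLinear (Oq 𝒜) n
  exact acts_abs hc hK hσ τ

theorem homDim_main (m : Model 𝒜) (S : SerreFunctor (Orth (Oq 𝒜))) (σ τ : Stab (Orth (Oq 𝒜)))
    (hσ : σ.SerreInvariant S) : τ.SerreInvariant S ∧ τ.HomDimLE 3 := by
  obtain ⟨g, h⟩ := all_main m S σ τ hσ
  obtain ⟨c, hc⟩ := geo_main m S
  have := fun n => orthShiftLinear (Oq 𝒜) n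
  exact ⟨hσ.of_acts h, homDim_of hc (hσ.of_acts h)⟩

end Pool.Agent.MP_228983_ag
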