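import Pool.Agent.MP_228983_ag.GrBase

/-!
The abelian category of graded modules, its Serre quotient qgr by the finite dimensional modules,
and the right orthogonal of two objects in a bounded derived category.
-/

namespace Pool.Agent.MP_228983_ag

open CategoryTheory Limits Pretriangulated

section

variable {A : Type} [CommRing A] [Algebra ℂ A] [IsNoetherianRing A] (𝒜 : ℤ → Submodule ℂ A)

instance GrMod.abelian : Abelian (GrMod 𝒜) where
  toPreadditive := GrMod.preadditive
  toIsNormalMonoCategory := GrMod.isNormalMonoCategory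
  toIsNormalEpiCategory := GrMod.isNormalEpiCategory
  has_finite_products := GrMod.hasFiniteProducts
  has_kernels := GrMod.hasKernels
  has_cokernels := GrMod.hasCokernels

variable {𝒜} in
theorem GrMod.exact_iff (S : ShortComplex (GrMod 𝒜)) :
    S.Exact ↔ Function.Exact S.f.1 S.g.1 := by
  have hz : ∀ x, S.g.1 (S.f.1 x) = 0 := fun x => congrArg (fun ψ : S.X₁ ⟶ S.X₃ => ψ.1 x) S.zero
  let e := (kernelIsKernel S.g).conePointUniqueUpToIso (GrMod.kerIsLimit S.g)
  have he : e.hom ≫ S.X₂.subι _ (GrMod.isHomog_ker S.g) = kernel.ι S.g :=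
    (kernelIsKernel S.g).conePointUniqueUpToIso_hom_comp (GrMod.kerIsLimit S.g)
      WalkingParallelPair.zero
  have h : kernel.lift S.g S.f S.zero ≫ e.hom = GrMod.subLift _ (GrMod.isHomog_ker S.g) S.f hz := by
    have : Mono (S.X₂.subι _ (GrMod.isHomog_ker S.g)) :=
      (GrMod.mono_iff_injective _).2 (GrMod.subι_injective _ _ _)
    rw [← cancel_mono (S.X₂.subι _ (GrMod.isHomog_ker S.g)), Category.assoc, he, kernel.lift_ι]
    rfl
  rw [S.exact_iff_epi_kernel_lift, ← epi_comp_iff_of_isIso _ e.hom, h, GrMod.epi_iff_surjective]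
  constructor
  · intro hs y
    refine ⟨fun hy => ?_, ?_⟩
    · obtain ⟨x, hx⟩ := hs ⟨y, hy⟩
      exact ⟨x, congrArg Subtype.val hx⟩
    · rintro ⟨x, rfl⟩
      exact hz x
  · intro hs y
    obtain ⟨x, hx⟩ := (hs y.1).1 y.2
    exact ⟨x, Subtype.ext hx⟩

variable {𝒜} in
theorem GrMod.shortExact_iff (S : ShortComplex (GrMod 𝒜)) :
    S.ShortExact ↔
      Function.Injective S.f.1 ∧ Function.Exact S.f.1 S.g.1 ∧ Function.Surjective S.g.1 := by
  rw [← GrMod.mono_iff_injective, ← GrMod.epi_iff_surjective, ← GrMod.exact_iff]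
  exact ⟨fun h => ⟨h.mono_f, h.exact, h.epi_g⟩, fun ⟨h1, h2, h3⟩ => ⟨h2⟩⟩

variable {𝒜} in
theorem GrMod.isZero_iff (M : GrMod 𝒜) : IsZero M ↔ ∀ x : M.car, x = 0 := by
  rw [IsZero.iff_id_eq_zero]
  exact ⟨fun h x => congrArg (fun ψ : M ⟶ M => ψ.1 x) h, fun h => GrMod.hom_ext h⟩

/-- Torsion modules: those of finite dimension over the complex numbers. -/
def tors : ObjectProperty (GrMod 𝒜) := fun M => FiniteDimensional ℂ M.car

instance tors_isSerreClass : (tors 𝒜).IsSerreClass where
  exists_zero := by
    obtain ⟨Z, hZ⟩ : ∃ Z : GrMod 𝒜, IsZero Z := HasZeroObject.zero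
    have : Subsingleton Z.car := subsingleton_of_forall_eq 0 ((GrMod.isZero_iff Z).1 hZ)
    exact ⟨Z, hZ, Module.Finite.of_finite⟩
  prop_of_mono f hf hY :=
    have : FiniteDimensional ℂ _ := hY
    FiniteDimensional.of_injective (f.1.restrictScalars ℂ) ((GrMod.mono_iff_injective f).1 hf)
  prop_of_epi f hf hX :=
    have : FiniteDimensional ℂ _ := hX
    Module.Finite.of_surjective (f.1.restrictScalars ℂ) ((GrMod.epi_iff_surjective f).1 hf)
  prop_X₂_of_shortExact {S} hS h₁ h₃ := by
    have : FiniteDimensional ℂ _ := h₁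
    have : FiniteDimensional ℂ _ := h₃
    obtain ⟨-, h, h'⟩ := (GrMod.shortExact_iff S).1 hS
    exact Module.Finite.of_exact (f := S.f.1.restrictScalars ℂ) (g := S.g.1.restrictScalars ℂ) h h'

/-- The Serre quotient qgr A = gr A / tors A. -/
def Qgr : Type 1 := (tors 𝒜).isoModSerre.Localization

noncomputable instance Qgr.category : Category.{1} (Qgr 𝒜) :=
  (tors 𝒜).isoModSerre.instCategoryLocalization

/-- The quotient functor from gr A to qgr A. -/
noncomputable def toQgr : GrMod 𝒜 ⥤ Qgr 𝒜 := (tors 𝒜).isoModSerre.Q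

instance toQgr_isLocalization : (toQgr 𝒜).IsLocalization (tors 𝒜).isoModSerre :=
  Functor.q_isLocalization _

noncomputable instance Qgr.preadditive : Preadditive (Qgr 𝒜) :=
  Localization.instPreadditiveLocalization (tors 𝒜).isoModSerre

instance toQgr_additive : (toQgr 𝒜).Additive :=
  (inferInstance : (tors 𝒜).isoModSerre.Q.Additive)

noncomputable instance Qgr.abelian : Abelian (Qgr 𝒜) :=
  ObjectProperty.SerreClassLocalization.abelian (toQgr 𝒜) (tors 𝒜)

noncomputable instance Qgr.linear : Linear ℂ (Qgr 𝒜) :=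
  Localization.linear ℂ (toQgr 𝒜) (tors 𝒜).isoModSerre

instance toQgr_linear : (toQgr 𝒜).Linear ℂ :=
  Localization.functor_linear ℂ (toQgr 𝒜) (tors 𝒜).isoModSerre

noncomputable instance Qgr.hasDerivedCategory : HasDerivedCategory.{1} (Qgr 𝒜) :=
  HasDerivedCategory.standard _

instance toQgr_preservesFiniteLimits : PreservesFiniteLimits (toQgr 𝒜) :=
  ObjectProperty.SerreClassLocalization.preservesFiniteLimits _ (tors 𝒜)

instance toQgr_preservesFiniteColimits : PreservesFiniteColimits (toQgr 𝒜) :=
  ObjectProperty.SerreClassLocalization.preservesFiniteColimits _ (tors 𝒜)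

instance toQgr_essSurj : (toQgr 𝒜).EssSurj := Localization.essSurj _ (tors 𝒜).isoModSerre

end

section

universe w v u

variable {B : Type u} [Category.{v} B] [Abelian B] [HasDerivedCategory.{w} B]

/-- Objects E of the bounded derived category with Hom(O i, E[k]) = 0 for i = 0, 1 and all k. -/
def orth (O : ℤ → B) : ObjectProperty (DerivedCategory B) := fun E =>
  DerivedCategory.TStructure.t.bounded E ∧
    ∀ i : ℤ, (i = 0 ∨ i = 1) → ∀ (k : ℤ)
      (u : (DerivedCategory.singleFunctor B 0).obj (O i) ⟶ E⟦k⟧), u = 0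

theorem orth_eq (O : ℤ → B) : orth O = DerivedCategory.TStructure.t.bounded ⊓
    (ObjectProperty.shiftClosure (fun X => ∃ i : ℤ, (i = 0 ∨ i = 1) ∧
      X = (DerivedCategory.singleFunctor B 0).obj (O i)) ℤ).rightOrthogonal := by
  ext E
  refine and_congr_right fun _ => ⟨?_, ?_⟩
  · rintro h X f ⟨_, a, e, i, hi, rfl⟩
    rw [← cancel_epi e.inv, comp_zero]
    apply ((shiftEquiv (DerivedCategory B) a).toAdjunction.homEquiv _ _).injective
    exact (h i hi (-a) _).trans (h i hi (-a) _).symm
  · intro h i hi k u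
    apply ((shiftEquiv (DerivedCategory B) k).symm.toAdjunction.homEquiv _ _).symm.injective
    exact (h _ ⟨_, -k, Iso.refl _, i, hi, rfl⟩).trans (h _ ⟨_, -k, Iso.refl _, i, hi, rfl⟩).symm

instance orth_isTriangulated (O : ℤ → B) : (orth O).IsTriangulated := by
  rw [orth_eq]
  infer_instance

/-- The full subcategory on these objects. -/
def Orth (O : ℤ → B) : Type (max u v) := (orth O).FullSubcategory

variable (O : ℤ → B)

noncomputable instance Orth.category : Category.{w} (Orth O) :=
  (inferInstance : Category.{w} (orth O).FullSubcategory)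

noncomputable instance Orth.preadditive : Preadditive (Orth O) :=
  (inferInstance : Preadditive (orth O).FullSubcategory)

instance Orth.hasZeroObject : HasZeroObject (Orth O) :=
  (inferInstance : HasZeroObject (orth O).FullSubcategory)

noncomputable instance Orth.hasShift : HasShift (Orth O) ℤ :=
  (inferInstance : HasShift (orth O).FullSubcategory ℤ)

instance Orth.shift_additive (n : ℤ) : (shiftFunctor (Orth O) n).Additive :=
  (inferInstance : (shiftFunctor (orth O).FullSubcategory n).Additive)

noncomputable instance Orth.pretriangulated : Pretriangulated (Orth O) :=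
  (inferInstance : Pretriangulated (orth O).FullSubcategory)

instance Orth.isTriangulated : IsTriangulated (Orth O) :=
  (inferInstance : IsTriangulated (orth O).FullSubcategory)

noncomputable instance Orth.linear [Linear ℂ B] : Linear ℂ (Orth O) :=
  (inferInstance : Linear ℂ (orth O).FullSubcategory)

end

end Pool.Agent.MP_228983_ag
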